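import Pool.Agent.H79.V.Cir

/-! The sixth moment for the values of a general quadratic polynomial, and the mean square over the shifts. -/

set_option autoImplicit false

namespace Pool.Agent.H79.U

open Finset
open Pool.Agent.helper24_UT
open Pool.Agent.H807R2.Dav (ee norm_ee ee_add)
open Pool.Agent.helper24_UT.Wpar (sum_period parseval conj_ee)
open Pool.Agent.H79.V.Six
open Pool.Agent.H79.V.Cir (pars ee_add3)

/-- the values -/
def qa (a t : ℤ) (n : ℕ) : ℤ := a * (n : ℤ) ^ 2 + t * n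

/-- the number of solutions with three variables on both sides -/
noncomputable def Ja (a t : ℤ) (Y : ℕ) : ℕ := ((Tr Y ×ˢ Tr Y).filter (fun p =>
    qa a t p.1.1 + qa a t p.1.2.1 + qa a t p.1.2.2 = qa a t p.2.1 + qa a t p.2.2.1 + qa a t p.2.2.2)).card

theorem six_a (a t : ℤ) (Y : ℕ) (ha : 1 ≤ a) (ht : 1 ≤ t) (hY : 1 ≤ Y) :
    (Ja a t Y : ℝ) ≤ (1 + 6 * a * (Y : ℝ) ^ 2 / t) * (12 * (Y : ℝ) ^ 3 * (1 + Real.log Y) ^ 2) := by
  classical
  unfold Ja
  set D : ℕ := 3 * a.toNat * Y ^ 2 / t.toNat with hD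
  set S := (Tr Y ×ˢ Tr Y).filter (fun p =>
    qa a t p.1.1 + qa a t p.1.2.1 + qa a t p.1.2.2 = qa a t p.2.1 + qa a t p.2.2.1 + qa a t p.2.2.2) with hS
  set δ : (ℕ × ℕ × ℕ) × (ℕ × ℕ × ℕ) → ℤ := fun p =>
    ((p.1.1 : ℤ) + p.1.2.1 + p.1.2.2) - ((p.2.1 : ℤ) + p.2.2.1 + p.2.2.2) with hδ
  have hTn : (t.toNat : ℤ) = t := Int.toNat_of_nonneg (by omega)
  have hAn : (a.toNat : ℤ) = a := Int.toNat_of_nonneg (by omega)
  have hkey : ∀ p ∈ S, t * δ p = a * (((p.2.1 : ℤ) ^ 2 + (p.2.2.1 : ℤ) ^ 2 + (p.2.2.2 : ℤ) ^ 2) - ((p.1.1 : ℤ) ^ 2 + (p.1.2.1 : ℤ) ^ 2 + (p.1.2.2 : ℤ) ^ 2)) := by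
    intro p hp
    rw [hS, mem_filter] at hp
    have hp2 := hp.2
    rw [hδ]
    unfold qa at hp2
    dsimp only
    linear_combination hp2
  have hmaps : ∀ p ∈ S, δ p ∈ Icc (-(D : ℤ)) D := by
    intro p hp
    have hk := hkey p hp
    rw [hS, mem_filter] at hp
    obtain ⟨hp1, hp2⟩ := hp
    unfold Tr at hp1
    simp only [mem_product, mem_range] at hp1
    obtain ⟨⟨a1, a2, a3⟩, b1, b2, b3⟩ := hp1
    have sqb : ∀ n : ℕ, n < Y → 0 ≤ (n : ℤ) ^ 2 ∧ (n : ℤ) ^ 2 ≤ (Y : ℤ) ^ 2 := by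
      intro n hn
      have : (n : ℤ) ≤ Y := by exact_mod_cast hn.le
      constructor
      · positivity
      · nlinarith [Nat.cast_nonneg (α := ℤ) n]
    have c1 := sqb _ a1
    have c2 := sqb _ a2
    have c3 := sqb _ a3
    have c4 := sqb _ b1
    have c5 := sqb _ b2
    have c6 := sqb _ b3
    have hab : |δ p| * t ≤ a * (3 * (Y : ℤ) ^ 2) := by
      have h1 : |δ p| * t = |t * δ p| := by
        rw [abs_mul, abs_of_nonneg (by omega : 0 ≤ t), mul_comm]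
      rw [h1, hk, abs_mul, abs_of_nonneg (by omega : 0 ≤ a)]
      apply mul_le_mul_of_nonneg_left _ (by omega)
      rw [abs_le]
      constructor <;> linarith
    have h2 : (δ p).natAbs ≤ D := by
      rw [hD, Nat.le_div_iff_mul_le (by omega)]
      have h3 : (((δ p).natAbs * t.toNat : ℕ) : ℤ) ≤ ((3 * a.toNat * Y ^ 2 : ℕ) : ℤ) := by
        push_cast
        rw [hTn, hAn]
        have : (3 : ℤ) * a * (Y : ℤ) ^ 2 = a * (3 * (Y : ℤ) ^ 2) := by ring
        rw [this]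
        exact hab
      exact_mod_cast h3
    rw [mem_Icc]
    omega
  have h1 : (S.card : ℝ) = ∑ s ∈ Icc (-(D : ℤ)) D, ((S.filter (fun p => δ p = s)).card : ℝ) := by
    rw [card_eq_sum_card_fiberwise hmaps]
    push_cast
    rfl
  have h2 : ∀ s ∈ Icc (-(D : ℤ)) D, ((S.filter (fun p => δ p = s)).card : ℝ) ≤ 12 * (Y : ℝ) ^ 3 * (1 + Real.log Y) ^ 2 := by
    intro s _
    rcases (S.filter (fun p => δ p = s)).eq_empty_or_nonempty with h0 | h0
    · rw [h0, card_empty]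
      have hl : 0 ≤ Real.log Y := Real.log_natCast_nonneg _
      push_cast
      positivity
    · -- a common value of the second coordinate
      obtain ⟨p₀, hp₀⟩ := h0
      set u : ℤ := ((p₀.1.1 : ℤ) ^ 2 + (p₀.1.2.1 : ℤ) ^ 2 + (p₀.1.2.2 : ℤ) ^ 2) - ((p₀.2.1 : ℤ) ^ 2 + (p₀.2.2.1 : ℤ) ^ 2 + (p₀.2.2.2 : ℤ) ^ 2) with hu
      refine le_trans ?_ (vin Y hY)
      refine le_trans ?_ (shift_le (Tr Y) ph (s, u))
      have h3 : (S.filter (fun p => δ p = s)).card ≤ ((Tr Y ×ˢ Tr Y).filter (fun p => ph p.1 = ph p.2 + (s, u))).card := by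
        apply card_le_card_of_injOn (fun p => ((p.1.1, p.1.2.1, p.2.2.2), (p.2.1, p.2.2.1, p.1.2.2)))
        · intro p hp
          have hpS : p ∈ S := (mem_filter.1 hp).1
          have hk := hkey p hpS
          have hk₀ := hkey p₀ (mem_filter.1 hp₀).1
          have hs₀ := (mem_filter.1 hp₀).2
          rw [Finset.mem_coe, mem_filter, hS, mem_filter] at hp
          obtain ⟨⟨hp1, hp2⟩, hp3⟩ := hp
          rw [hp3] at hk
          rw [hs₀] at hk₀
          have hsame : ((p.1.1 : ℤ) ^ 2 + (p.1.2.1 : ℤ) ^ 2 + (p.1.2.2 : ℤ) ^ 2) - ((p.2.1 : ℤ) ^ 2 + (p.2.2.1 : ℤ) ^ 2 + (p.2.2.2 : ℤ) ^ 2) = u := by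
            have e1 : a * (((p.2.1 : ℤ) ^ 2 + (p.2.2.1 : ℤ) ^ 2 + (p.2.2.2 : ℤ) ^ 2) - ((p.1.1 : ℤ) ^ 2 + (p.1.2.1 : ℤ) ^ 2 + (p.1.2.2 : ℤ) ^ 2)) =
                a * (((p₀.2.1 : ℤ) ^ 2 + (p₀.2.2.1 : ℤ) ^ 2 + (p₀.2.2.2 : ℤ) ^ 2) - ((p₀.1.1 : ℤ) ^ 2 + (p₀.1.2.1 : ℤ) ^ 2 + (p₀.1.2.2 : ℤ) ^ 2)) := by
              rw [← hk, ← hk₀]
            have e2 := mul_left_cancel₀ (show a ≠ 0 by omega) e1
            rw [hu]
            linarith
          unfold Tr at hp1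
          simp only [mem_product] at hp1
          obtain ⟨⟨a1, a2, a3⟩, b1, b2, b3⟩ := hp1
          rw [Finset.mem_coe, mem_filter]
          refine ⟨?_, ?_⟩
          · unfold Tr
            simp only [mem_product]
            exact ⟨⟨a1, a2, b3⟩, b1, b2, a3⟩
          · rw [hδ] at hp3
            dsimp only at hp3
            unfold ph
            dsimp only
            rw [Prod.mk_add_mk, Prod.mk.injEq]
            constructor
            · linarith
            · linarith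
        · intro p _ p' _ he
          simp only [Prod.mk.injEq] at he
          obtain ⟨⟨e1, e2, e3⟩, e4, e5, e6⟩ := he
          exact Prod.ext (Prod.ext e1 (Prod.ext e2 e6)) (Prod.ext e4 (Prod.ext e5 e3))
      exact_mod_cast h3
  rw [h1]
  refine (sum_le_sum h2).trans ?_
  rw [sum_const, nsmul_eq_mul, Int.card_Icc]
  have hl : 0 ≤ Real.log Y := Real.log_natCast_nonneg _
  apply mul_le_mul_of_nonneg_right _ (by positivity)
  have h3 : ((D : ℤ) + 1 - -(D : ℤ)).toNat = 2 * D + 1 := by omega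
  rw [h3]
  push_cast
  have hTR : ((t.toNat : ℕ) : ℝ) = (t : ℝ) := by exact_mod_cast hTn
  have hAR : ((a.toNat : ℕ) : ℝ) = (a : ℝ) := by exact_mod_cast hAn
  have h4 : (D : ℝ) ≤ 3 * a * (Y : ℝ) ^ 2 / t := by
    rw [hD, ← hTR, ← hAR]
    refine Nat.cast_div_le.trans ?_
    push_cast
    exact le_rfl
  have h5 : 6 * (a : ℝ) * (Y : ℝ) ^ 2 / t = 2 * (3 * a * (Y : ℝ) ^ 2 / t) := by ring
  rw [h5]
  linarith

/-- the exponential sum over the block -/
noncomputable def Ak (a t : ℤ) (Y M : ℕ) (ε : ℕ → ℝ) (j : ℕ) : ℂ :=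
  ∑ n ∈ range Y, (ε n : ℂ) * ee (-(((qa a t n : ℤ) : ℝ) * j / M))

lemma six_mom (a t : ℤ) (Y M : ℕ) (ha : 1 ≤ a) (ht : 1 ≤ t) (hM : 3 * (a * (Y : ℤ) ^ 2 + t * Y) < M) (ε : ℕ → ℝ) (hε : ∀ n, |ε n| ≤ 1) :
    ∑ j ∈ range M, ‖Ak a t Y M ε j‖ ^ 6 ≤ M * Ja a t Y := by
  classical
  have hM0 : 0 < M := by
    have : (0 : ℤ) ≤ a * (Y : ℤ) ^ 2 + t * Y := by positivity
    omega
  -- the cube
  set s : ℕ × ℕ × ℕ → ℤ := fun v => (qa a t v.1 + qa a t v.2.1 + qa a t v.2.2) with hs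
  set e3 : ℕ × ℕ × ℕ → ℝ := fun v => ε v.1 * ε v.2.1 * ε v.2.2 with he3
  set C : ℤ → ℝ := fun k => ∑ v ∈ (Tr Y).filter (fun v => s v = k), e3 v with hC
  have hcube : ∀ j : ℕ, Ak a t Y M ε j ^ 3 = ∑ k ∈ (Tr Y).image s, (C k : ℂ) * ee (-((k : ℝ) * j / M)) := by
    intro j
    have h1 : Ak a t Y M ε j ^ 3 = ∑ v ∈ Tr Y, (e3 v : ℂ) * ee (-((s v : ℝ) * j / M)) := by
      unfold Tr
      rw [sum_product]
      simp_rw [sum_product]
      rw [show Ak a t Y M ε j ^ 3 = Ak a t Y M ε j * (Ak a t Y M ε j * Ak a t Y M ε j) by ring]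
      unfold Ak
      rw [sum_mul_sum, sum_mul_sum]
      refine sum_congr rfl fun x _ => ?_
      refine sum_congr rfl fun y _ => ?_
      rw [mul_sum]
      refine sum_congr rfl fun w _ => ?_
      have e1 : (-((s (x, y, w) : ℝ) * j / M)) = -(((qa a t x : ℤ) : ℝ) * j / M) + -(((qa a t y : ℤ) : ℝ) * j / M) + -(((qa a t w : ℤ) : ℝ) * j / M) := by
        rw [hs]
        push_cast
        ring
      rw [e1, ee_add3, he3]
      push_cast
      ring
    rw [h1, ← sum_fiberwise_of_maps_to (s := Tr Y) (t := (Tr Y).image s) (g := s) (fun v hv => mem_image_of_mem s hv)]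
    refine sum_congr rfl fun k _ => ?_
    rw [hC]
    push_cast
    rw [sum_mul]
    refine sum_congr rfl fun v hv => ?_
    rw [(mem_filter.1 hv).2]
  have hrange : ∀ k ∈ (Tr Y).image s, 0 ≤ k ∧ k ≤ 3 * (a * (Y : ℤ) ^ 2 + t * Y) := by
    intro k hk
    rw [mem_image] at hk
    obtain ⟨v, hv, rfl⟩ := hk
    unfold Tr at hv
    simp only [mem_product, mem_range] at hv
    have h1 : ∀ n : ℕ, n < Y → 0 ≤ qa a t n ∧ qa a t n ≤ a * (Y : ℤ) ^ 2 + t * Y := by
      intro n hn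
      have h2 : (n : ℤ) ≤ Y := by exact_mod_cast hn.le
      have h3 : (0 : ℤ) ≤ n := Nat.cast_nonneg n
      have h4 : (n : ℤ) ^ 2 ≤ (Y : ℤ) ^ 2 := by nlinarith
      unfold qa
      constructor
      · positivity
      · have e1 := mul_le_mul_of_nonneg_left h4 (show 0 ≤ a by omega)
        have e2 := mul_le_mul_of_nonneg_left h2 (show 0 ≤ t by omega)
        linarith
    have h2 := h1 _ hv.1
    have h3 := h1 _ hv.2.1
    have h4 := h1 _ hv.2.2
    rw [hs]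
    dsimp only
    constructor <;> linarith
  have h1 := parseval M hM0 ((Tr Y).image s) (by
    intro i hi j hj hd
    have hi' := hrange i hi
    have hj' := hrange j hj
    by_contra hne
    have h1 := Int.le_of_dvd (show 0 < |i - j| from abs_pos.2 (by omega)) ((dvd_abs _ _).2 hd)
    have h2 : |i - j| ≤ 3 * (a * (Y : ℤ) ^ 2 + t * Y) := by rw [abs_le]; constructor <;> linarith [hi'.1, hi'.2, hj'.1, hj'.2]
    omega) (fun k => (C k : ℂ))
  have h2 : ∑ j ∈ range M, ‖Ak a t Y M ε j‖ ^ 6 = M * ∑ k ∈ (Tr Y).image s, ‖(C k : ℂ)‖ ^ 2 := by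
    rw [← h1]
    refine sum_congr rfl fun j _ => ?_
    rw [← hcube j, norm_pow]
    ring
  rw [h2]
  apply mul_le_mul_of_nonneg_left _ (Nat.cast_nonneg _)
  have h3 : ∀ k ∈ (Tr Y).image s, ‖(C k : ℂ)‖ ^ 2 ≤ (((Tr Y).filter (fun v => s v = k)).card : ℝ) ^ 2 := by
    intro k _
    rw [Complex.norm_real]
    apply pow_le_pow_left₀ (norm_nonneg _)
    rw [hC]
    refine (norm_sum_le _ _).trans ?_
    have h4 : ∀ v ∈ (Tr Y).filter (fun v => s v = k), ‖e3 v‖ ≤ 1 := by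
      intro v _
      rw [he3]
      dsimp only
      rw [norm_mul, norm_mul, Real.norm_eq_abs, Real.norm_eq_abs, Real.norm_eq_abs]
      have a1 := hε v.1
      have a2 := hε v.2.1
      have a3 := hε v.2.2
      have b1 := abs_nonneg (ε v.1)
      have b2 := abs_nonneg (ε v.2.1)
      have b3 := abs_nonneg (ε v.2.2)
      calc |ε v.1| * |ε v.2.1| * |ε v.2.2| ≤ 1 * 1 * 1 := by gcongr
        _ = 1 := by ring
    refine (sum_le_sum h4).trans ?_
    rw [sum_const, nsmul_eq_mul, mul_one]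
  refine (sum_le_sum h3).trans ?_
  unfold Ja
  rw [card_filter]
  push_cast
  rw [sum_product]
  have h5 : ∀ v ∈ Tr Y, (∑ w ∈ Tr Y, if qa a t v.1 + qa a t v.2.1 + qa a t v.2.2 = qa a t w.1 + qa a t w.2.1 + qa a t w.2.2 then (1 : ℝ) else 0) =
      (((Tr Y).filter (fun w => s w = s v)).card : ℝ) := by
    intro v _
    rw [card_filter]
    push_cast
    refine sum_congr rfl fun w _ => ?_
    congr 1
    apply propext
    rw [hs]
    dsimp only
    constructor <;> intro h <;> omega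
  rw [sum_congr rfl h5, ← sum_fiberwise_of_maps_to (s := Tr Y) (t := (Tr Y).image s) (g := s) (fun v hv => mem_image_of_mem s hv)]
  apply sum_le_sum
  intro k _
  have h6 : ∀ v ∈ (Tr Y).filter (fun v => s v = k), (((Tr Y).filter (fun w => s w = s v)).card : ℝ) = (((Tr Y).filter (fun w => s w = k)).card : ℝ) := by
    intro v hv
    rw [(mem_filter.1 hv).2]
  rw [sum_congr rfl h6, sum_const, nsmul_eq_mul, sq]

/-- Hölder's inequality with the weights `u` -/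
lemma holder3 {ι : Type*} (s : Finset ι) (u x : ι → ℝ) (hu : ∀ i ∈ s, 0 ≤ u i) (hx : ∀ i ∈ s, 0 ≤ x i) :
    (∑ i ∈ s, u i * x i) ^ 3 ≤ (∑ i ∈ s, u i) ^ 2 * ∑ i ∈ s, u i * x i ^ 3 := by
  set U : ℝ := ∑ i ∈ s, u i with hU
  have hU0 : 0 ≤ U := sum_nonneg hu
  rcases hU0.lt_or_eq with h | h
  · have h1 := Real.pow_arith_mean_le_arith_mean_pow s (fun i => u i / U) x (fun i hi => div_nonneg (hu i hi) hU0)
      (by rw [← sum_div, ← hU, div_self h.ne']) hx 3
    have h2 : ∑ i ∈ s, u i / U * x i = (∑ i ∈ s, u i * x i) / U := by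
      rw [sum_div]
      refine sum_congr rfl fun i _ => by ring
    have h3 : ∑ i ∈ s, u i / U * x i ^ 3 = (∑ i ∈ s, u i * x i ^ 3) / U := by
      rw [sum_div]
      refine sum_congr rfl fun i _ => by ring
    rw [h2, h3, div_pow, div_le_div_iff₀ (by positivity) h] at h1
    have h4 : (∑ i ∈ s, u i * x i) ^ 3 * U ≤ (U ^ 2 * ∑ i ∈ s, u i * x i ^ 3) * U := by
      calc _ ≤ (∑ i ∈ s, u i * x i ^ 3) * U ^ 3 := h1
        _ = _ := by ring
    exact le_of_mul_le_mul_right h4 h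
  · have h1 : ∀ i ∈ s, u i = 0 := by
      apply (sum_eq_zero_iff_of_nonneg hu).1
      rw [← hU, ← h]
    have h2 : ∑ i ∈ s, u i * x i = 0 := sum_eq_zero fun i hi => by rw [h1 i hi, zero_mul]
    have h3 : ∑ i ∈ s, u i * x i ^ 3 = 0 := sum_eq_zero fun i hi => by rw [h1 i hi, zero_mul]
    rw [h2, h3]
    norm_num

end Pool.Agent.H79.U
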