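import Pool.Agent.H79.V.Bl

/-! In all but few blocks all exponential sums over primes minus model in windows are small. -/

set_option autoImplicit false

namespace Pool.Agent.H79.U

open Finset
open Pool.Agent.helper24_UT
open Pool.Agent.H807R2.Dav (ee norm_ee)
open Pool.Agent.H373R2.T7 (lamI lamzI lamz Vz pz mem_pz ev_log' ev_L' Vz_pos Vz_inv_small)
open Pool.Agent.helper24_UT.Mj (h176_NN_nonneg)
open Pool.Agent.H79.V (gp diam_card sqrt_sum markov W_exists)

/-- all windows of length at most `2 h` near the point `c` are good -/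
def GC (z X h d a : ℕ) (c : ℝ) : Prop := ∀ x K : ℕ, X ^ 2 ≤ 4 * x → x ≤ 12 * X ^ 2 → K ≤ 2 * h →
  |(x : ℝ) - c| ≤ Real.log X ^ a * h → ∀ α : ℝ, ‖sw (Ed z) K (x : ℤ) α‖ ≤ h / (Real.log X) ^ d

/-- how often a point is covered -/
lemma mult (X Y I : ℕ) (c : ℕ → ℝ) (hc : ∀ i j : ℕ, j ≤ i → (X : ℝ) * Y * ((i : ℝ) - j) ≤ c i - c j) (u R : ℝ) (hX : 1 ≤ X) (hY : 1 ≤ Y)
    (hR : 0 ≤ R) : (((range I).filter (fun i => |u - c i| ≤ R)).card : ℝ) ≤ 2 * R / (X * Y) + 1 := by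
  have hX0 : (0 : ℝ) < X := by exact_mod_cast hX
  have hY0 : (0 : ℝ) < Y := by exact_mod_cast hY
  apply diam_card _ _ (by positivity)
  intro i hi j hj hij
  rw [mem_filter] at hi hj
  have h1 := abs_le.1 hi.2
  have h2 := abs_le.1 hj.2
  have h3 := hc i j hij
  rw [le_div_iff₀ (by positivity)]
  nlinarith

lemma bl_num (L X Y h W U μ cnt : ℝ) (d B a1 a2 A g : ℕ) (hL : 1000 ≤ L) (hX : 0 < X) (hY : 0 < Y) (hh : 0 < h) (hW : 0 < W)
    (hU : U = 17 * X ^ 2) (hμ : μ ≤ 2 * ((L ^ a1 + 2) * h) / (X * Y) + 1) (hXY : X * Y ≤ h) (hh2 : h ≤ X * Y * L ^ a2)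
    (hg : g = d + B + a1 + a2 + A + 1) (hcnt : cnt * (h * W / (4 * L ^ d)) ≤ μ * (L ^ B * (U * W / L ^ g))) :
    cnt * Y ≤ X / L ^ A := by
  have hL0 : 0 < L := by linarith
  have h1 : μ ≤ 8 * L ^ (a1 + a2) := by
    have e1 : 2 * ((L ^ a1 + 2) * h) / (X * Y) ≤ 2 * ((L ^ a1 + 2) * L ^ a2) := by
      rw [div_le_iff₀ (by positivity)]
      calc 2 * ((L ^ a1 + 2) * h) ≤ 2 * ((L ^ a1 + 2) * (X * Y * L ^ a2)) := by gcongr
        _ = _ := by ring
    have e2 : (1 : ℝ) ≤ L ^ a1 := one_le_pow₀ (by linarith)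
    have e3 : (1 : ℝ) ≤ L ^ a2 := one_le_pow₀ (by linarith)
    have e4 : (1 : ℝ) ≤ L ^ a1 * L ^ a2 := one_le_mul_of_one_le_of_one_le e2 e3
    rw [pow_add]
    have e5 : (L ^ a1 + 2) * L ^ a2 ≤ 3 * (L ^ a1 * L ^ a2) := by nlinarith
    linarith
  have h2 : cnt * (h * W / (4 * L ^ d)) ≤ 8 * L ^ (a1 + a2) * (L ^ B * (U * W / L ^ g)) := by
    refine hcnt.trans ?_
    apply mul_le_mul_of_nonneg_right h1
    rw [hU]; positivity
  have h3 : cnt * h ≤ 544 * X ^ 2 * (L ^ (a1 + a2) * L ^ B * L ^ d / L ^ g) := by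
    have e1 : cnt * h = cnt * (h * W / (4 * L ^ d)) * (4 * L ^ d / W) := by field_simp
    rw [e1]
    calc cnt * (h * W / (4 * L ^ d)) * (4 * L ^ d / W) ≤ 8 * L ^ (a1 + a2) * (L ^ B * (U * W / L ^ g)) * (4 * L ^ d / W) := by gcongr
      _ = 544 * X ^ 2 * (L ^ (a1 + a2) * L ^ B * L ^ d / L ^ g) := by
          rw [hU]
          field_simp
          ring
  have h4 : L ^ (a1 + a2) * L ^ B * L ^ d / L ^ g = 1 / L ^ (A + 1) := by
    rw [hg, show d + B + a1 + a2 + A + 1 = (a1 + a2) + B + d + (A + 1) by ring, pow_add L ((a1 + a2) + B + d) (A + 1),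
      pow_add L ((a1 + a2) + B) d, pow_add L (a1 + a2) B]
    field_simp
  rw [h4] at h3
  have h5 : cnt * Y * h ≤ X / L ^ A * h := by
    calc cnt * Y * h = cnt * h * Y := by ring
      _ ≤ 544 * X ^ 2 * (1 / L ^ (A + 1)) * Y := by gcongr
      _ = 544 / L * (X / L ^ A * (X * Y)) := by
          rw [pow_succ L A]
          field_simp
      _ ≤ 1 * (X / L ^ A * h) := by
          apply mul_le_mul _ _ (by positivity) (by norm_num)
          · rw [div_le_one hL0]; linarith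
          · gcongr
      _ = X / L ^ A * h := one_mul _
  exact le_of_mul_le_mul_right h5 hh

open Classical in
/-- all but few blocks are good -/
theorem blocksG (d a1 a2 A : ℕ) : ∃ Cc E₀ : ℕ, ∀ E₁ : ℕ, ∃ X₀ : ℕ, ∀ X : ℕ, X₀ ≤ X → ∀ z : ℕ, (Real.log X) ^ E₀ ≤ z →
    (z : ℝ) ≤ (Real.log X) ^ E₁ → ∀ h Y : ℕ, 32 * h ≤ X ^ 2 → (X : ℝ) ^ 3 * (Real.log X) ^ Cc ≤ (h : ℝ) ^ 2 → 1 ≤ Y →
    X * Y ≤ h → (h : ℝ) ≤ X * Y * (Real.log X) ^ a2 → ∀ c : ℕ → ℝ, (∀ i j : ℕ, j ≤ i → (X : ℝ) * Y * ((i : ℝ) - j) ≤ c i - c j) → ∀ I : ℕ,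
    (((range I).filter (fun i => ¬ GC z X h d a1 (c i))).card : ℝ) * Y ≤ X / (Real.log X) ^ A := by
  obtain ⟨B, hB⟩ := gp d
  set g : ℕ := d + B + a1 + a2 + A + 1 with hg
  obtain ⟨E₀, hE₀⟩ := Pool.Agent.H79.Q.t_SI13 100 (B + 2 * g) B (by norm_num)
  refine ⟨2 * B + d + 6, 2 * E₀, fun E₁ => ?_⟩
  obtain ⟨X₁, h1⟩ := hB E₁
  obtain ⟨X₂, h2⟩ := hE₀ E₁
  obtain ⟨X₃, h3⟩ := ev_L' 1000
  obtain ⟨X₄, h4⟩ := W_exists 100 rfl
  refine ⟨max (max X₁ X₂) (max (max X₃ X₄) 2), ?_⟩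
  intro X hX z hz1 hz2 h Y hh hh2 hY hXY hhXY c hcc I
  have c1 : X₁ ≤ X := ((le_max_left _ _).trans (le_max_left _ _)).trans hX
  have c2 : X₂ ≤ X := ((le_max_right _ _).trans (le_max_left _ _)).trans hX
  have c3 : X₃ ≤ X := ((le_max_left _ _).trans ((le_max_left _ _).trans (le_max_right _ _))).trans hX
  have c4 : X₄ ≤ X := ((le_max_right _ _).trans ((le_max_left _ _).trans (le_max_right _ _))).trans hX
  have c5 : 2 ≤ X := ((le_max_right _ _).trans (le_max_right _ _)).trans hX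
  have hL := h3 X c3
  have hWX := h4 X c4
  set L : ℝ := Real.log X with hLdef
  have hL0 : 0 < L := by linarith
  have hX1 : (2 : ℝ) ≤ X := by exact_mod_cast c5
  have hX0 : (0 : ℝ) < X := by linarith
  have hY0 : (0 : ℝ) < Y := by exact_mod_cast hY
  have hh0 : (0 : ℝ) < h := by
    have : (X : ℝ) * Y ≤ h := by exact_mod_cast hXY
    have := mul_pos hX0 hY0
    linarith
  have hz : 1 ≤ z := by
    have e1 : (1 : ℝ) ≤ L ^ (2 * E₀) := one_le_pow₀ (by linarith)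
    exact_mod_cast e1.trans hz1
  have hhX : (h : ℝ) ≤ (X : ℝ) ^ 2 / 32 := by
    have : ((32 * h : ℕ) : ℝ) ≤ ((X ^ 2 : ℕ) : ℝ) := by exact_mod_cast hh
    push_cast at this
    linarith
  -- the scale
  set U : ℕ := 17 * X ^ 2 with hU
  have hUX : X ≤ U := by rw [hU]; nlinarith
  have hlogU1 : L ≤ Real.log (U : ℝ) := Real.log_le_log hX0 (by exact_mod_cast hUX)
  have hlogU2 : Real.log (U : ℝ) ≤ 3 * L := by
    rw [hU]
    push_cast
    rw [Real.log_mul (by norm_num) (by positivity), Real.log_pow]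
    have : Real.log 17 ≤ 16 := by
      have := Real.log_le_sub_one_of_pos (show (0 : ℝ) < 17 by norm_num)
      linarith
    push_cast
    linarith
  -- the short length
  set w : ℝ := (h : ℝ) ^ 2 / ((X : ℝ) ^ 2 * L ^ (B + d + 3)) with hw
  have hw1 : (X : ℝ) ≤ w := by
    rw [hw, le_div_iff₀ (by positivity)]
    calc (X : ℝ) * ((X : ℝ) ^ 2 * L ^ (B + d + 3)) = (X : ℝ) ^ 3 * L ^ (B + d + 3) := by ring
      _ ≤ (X : ℝ) ^ 3 * L ^ (2 * B + d + 6) := by
          apply mul_le_mul_of_nonneg_left _ (by positivity)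
          exact pow_le_pow_right₀ (by linarith) (by omega)
      _ ≤ (h : ℝ) ^ 2 := hh2
  set W : ℕ := ⌊w⌋₊ with hWdef
  have hWw : (W : ℝ) ≤ w := Nat.floor_le (by linarith)
  have hWw2 : w - 1 ≤ W := by
    have := Nat.lt_floor_add_one w
    rw [← hWdef] at this
    linarith
  have hW1 : 1 ≤ W := by
    have : (1 : ℝ) ≤ W := by linarith
    exact_mod_cast this
  have hW0 : (0 : ℝ) < W := by exact_mod_cast hW1
  have hWh : (W : ℝ) * (X : ℝ) ^ 2 * L ^ (B + d + 3) ≤ (h : ℝ) ^ 2 := by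
    have e1 := hWw
    rw [hw, le_div_iff₀ (by positivity)] at e1
    linarith
  have hWU : W ≤ U := by
    have e1 : (W : ℝ) ≤ U := by
      refine hWw.trans ?_
      rw [hw, div_le_iff₀ (by positivity)]
      have e2 : (h : ℝ) ^ 2 ≤ (X : ℝ) ^ 2 * (X : ℝ) ^ 2 := by nlinarith
      have e3 : (1 : ℝ) ≤ L ^ (B + d + 3) := one_le_pow₀ (by linarith)
      rw [hU]
      push_cast
      calc (h : ℝ) ^ 2 ≤ (X : ℝ) ^ 2 * (X : ℝ) ^ 2 := e2
        _ ≤ (17 * (X : ℝ) ^ 2) * ((X : ℝ) ^ 2 * L ^ (B + d + 3)) := by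
            have e4 : (X : ℝ) ^ 2 * (X : ℝ) ^ 2 ≤ (X : ℝ) ^ 2 * (X : ℝ) ^ 2 * L ^ (B + d + 3) := le_mul_of_one_le_right (by positivity) e3
            have e5 : 0 ≤ (X : ℝ) ^ 2 * (X : ℝ) ^ 2 * L ^ (B + d + 3) := by positivity
            nlinarith
    exact_mod_cast e1
  have hWU2 : (U : ℝ) ^ (1 / 3 + 2 / (100 : ℕ) : ℝ) ≤ W := by
    refine hWX.trans ?_
    linarith
  -- the masses
  set R : ℝ := (L ^ a1 + 2) * h with hR
  have hR0 : 0 ≤ R := by positivity
  set Q : ℕ := ⌊L ^ B⌋₊ with hQ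
  have hQL : (Q : ℝ) ≤ L ^ B := Nat.floor_le (by positivity)
  set s : ℕ → ℕ → ℝ := fun q u => Real.sqrt (q * NN (Ed z) (u : ℤ) W q) with hs
  have hs0 : ∀ q u, 0 ≤ s q u := fun q u => Real.sqrt_nonneg _
  set F : ℕ → ℝ := fun i => ∑ q ∈ Icc 1 Q, ∑ u ∈ (range U).filter (fun u : ℕ => |(u : ℝ) - c i| ≤ R), s q u with hF
  have hF0 : ∀ i, 0 ≤ F i := fun i => sum_nonneg fun q _ => sum_nonneg fun u _ => hs0 q u
  have hbad : ∀ i, ¬ GC z X h d a1 (c i) → (h : ℝ) * W / (4 * L ^ d) ≤ F i := by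
    intro i hi
    by_contra hcon
    push Not at hcon
    apply hi
    intro x K hx1 hx2 hK hx3 α
    refine h1 X c1 z hz hz2 h hh ?_ W hW1 hWh x K hx1 hx2 hK ?_ α
    · -- `X ^ 4 L ^ B ≤ h ^ 3`
      have e1 : (X : ℝ) ^ 3 * L ^ (2 * B + d + 6) ≤ (h : ℝ) ^ 2 := hh2
      have e2 : (X : ℝ) * L ^ B ≤ h := by
        have e3 : ((X : ℝ) * L ^ B) ^ 2 ≤ (h : ℝ) ^ 2 := by
          calc ((X : ℝ) * L ^ B) ^ 2 = (X : ℝ) ^ 2 * L ^ (2 * B) := by rw [mul_pow, ← pow_mul]; ring_nf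
            _ ≤ (X : ℝ) ^ 3 * L ^ (2 * B + d + 6) := by
                apply mul_le_mul _ _ (by positivity) (by positivity)
                · exact pow_le_pow_right₀ (by linarith) (by norm_num)
                · exact pow_le_pow_right₀ (by linarith) (by omega)
            _ ≤ _ := e1
        exact le_of_pow_le_pow_left₀ (by norm_num) hh0.le e3
      calc (X : ℝ) ^ 4 * L ^ B = (X : ℝ) ^ 3 * (X * L ^ B) := by ring
        _ ≤ (h : ℝ) ^ 2 * h := by
            apply mul_le_mul _ e2 (by positivity) (by positivity)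
            refine le_trans ?_ e1
            exact le_mul_of_one_le_right (by positivity) (one_le_pow₀ (by linarith))
        _ = (h : ℝ) ^ 3 := by ring
    · intro q hq1 hq2
      have hqQ : q ∈ Icc 1 Q := by
        rw [mem_Icc]
        exact ⟨hq1, Nat.le_floor hq2⟩
      have e1 : ∑ u ∈ Ico (x : ℤ) (x + K), Real.sqrt (q * NN (Ed z) u W q) = ∑ u ∈ Ico x (x + K), s q u := by
        have e2 : Ico (x : ℤ) ((x : ℤ) + K) = (Ico x (x + K)).image (fun n : ℕ => (n : ℤ)) := by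
          ext m
          simp only [mem_Ico, mem_image]
          constructor
          · rintro ⟨a, b⟩
            refine ⟨m.toNat, ⟨?_, ?_⟩, ?_⟩ <;> omega
          · rintro ⟨n, ⟨a, b⟩, rfl⟩
            constructor <;> omega
        rw [e2, sum_image (by intro a _ b _ hab; simpa using hab)]
      rw [e1]
      have e2 : ∑ u ∈ Ico x (x + K), s q u ≤ ∑ u ∈ (range U).filter (fun u : ℕ => |(u : ℝ) - c i| ≤ R), s q u := by
        apply sum_le_sum_of_subset_of_nonneg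
        · intro u hu
          rw [mem_Ico] at hu
          rw [mem_filter, mem_range]
          constructor
          · rw [hU]
            have : K ≤ X ^ 2 := by omega
            omega
          · have e3 : |(u : ℝ) - x| ≤ 2 * h := by
              have e4 : (x : ℝ) ≤ u := by exact_mod_cast hu.1
              have e5 : (u : ℝ) ≤ x + K := by exact_mod_cast hu.2.le
              have e6 : (K : ℝ) ≤ 2 * h := by exact_mod_cast hK
              rw [abs_le]; constructor <;> linarith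
            have e4 : (u : ℝ) - c i = (u - x) + (x - c i) := by ring
            rw [e4]
            refine (abs_add_le _ _).trans ?_
            rw [hR]
            linarith
        · intro u _ _
          exact hs0 q u
      refine e2.trans ?_
      have e3 : ∑ u ∈ (range U).filter (fun u : ℕ => |(u : ℝ) - c i| ≤ R), s q u ≤ F i := by
        rw [hF]
        exact single_le_sum (f := fun q => ∑ u ∈ (range U).filter (fun u : ℕ => |(u : ℝ) - c i| ≤ R), s q u)
          (fun q _ => sum_nonneg fun u _ => hs0 q u) hqQ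
      exact e3.trans hcon.le
  -- the total mass
  have htot : ∑ i ∈ range I, F i ≤ (2 * R / (X * Y) + 1) * (L ^ B * ((U : ℝ) * W / L ^ g)) := by
    have e1 : ∑ i ∈ range I, F i = ∑ q ∈ Icc 1 Q, ∑ u ∈ range U, (((range I).filter (fun i => |(u : ℝ) - c i| ≤ R)).card : ℝ) * s q u := by
      rw [hF]
      dsimp only
      rw [sum_comm]
      refine sum_congr rfl fun q _ => ?_
      simp_rw [sum_filter]
      rw [sum_comm]
      refine sum_congr rfl fun u _ => ?_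
      rw [← sum_filter, sum_const, nsmul_eq_mul]
    rw [e1]
    have e2 : ∀ q ∈ Icc 1 Q, ∑ u ∈ range U, (((range I).filter (fun i => |(u : ℝ) - c i| ≤ R)).card : ℝ) * s q u ≤
        (2 * R / (X * Y) + 1) * ((U : ℝ) * W / L ^ g) := by
      intro q hq
      rw [mem_Icc] at hq
      have hqL : (q : ℝ) ≤ L ^ B := by
        have : (q : ℝ) ≤ Q := by exact_mod_cast hq.2
        exact this.trans hQL
      have e3 : ∑ u ∈ range U, (((range I).filter (fun i => |(u : ℝ) - c i| ≤ R)).card : ℝ) * s q u ≤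
          (2 * R / (X * Y) + 1) * ∑ u ∈ range U, s q u := by
        rw [mul_sum]
        refine sum_le_sum fun u _ => ?_
        exact mul_le_mul_of_nonneg_right (mult X Y I c hcc u R (by omega) hY hR0) (hs0 q u)
      refine e3.trans ?_
      apply mul_le_mul_of_nonneg_left _ (by positivity)
      have hz1' : Real.log (U : ℝ) ^ E₀ ≤ z := by
        calc Real.log (U : ℝ) ^ E₀ ≤ (3 * L) ^ E₀ := pow_le_pow_left₀ (by linarith) hlogU2 _
          _ ≤ (L ^ 2) ^ E₀ := pow_le_pow_left₀ (by positivity) (by nlinarith) _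
          _ = L ^ (2 * E₀) := by rw [← pow_mul]
          _ ≤ z := hz1
      have hz2' : (z : ℝ) ≤ Real.log (U : ℝ) ^ E₁ := hz2.trans (pow_le_pow_left₀ hL0.le hlogU1 _)
      have hqU : (q : ℝ) ≤ Real.log (U : ℝ) ^ B := hqL.trans (pow_le_pow_left₀ hL0.le hlogU1 _)
      have e4 := h2 U (c2.trans hUX) z hz1' hz2' q hq.1 hqU W hWU2 hWU
      have e5 : ∑ u ∈ range U, NN (Ed z) (u : ℤ) W q ≤ (U : ℝ) * (W : ℝ) ^ 2 / L ^ (B + 2 * g) := by
        refine e4.trans ?_
        apply div_le_div_of_nonneg_left (by positivity) (by positivity)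
        exact pow_le_pow_left₀ hL0.le hlogU1 _
      refine (sqrt_sum z U W q _ e5).trans ?_
      apply Real.sqrt_le_iff.2
      refine ⟨by positivity, ?_⟩
      rw [pow_add L B (2 * g), show 2 * g = g * 2 by ring, pow_mul]
      calc (U : ℝ) * (q * ((U : ℝ) * (W : ℝ) ^ 2 / (L ^ B * (L ^ g) ^ 2))) ≤ (U : ℝ) * (L ^ B * ((U : ℝ) * (W : ℝ) ^ 2 / (L ^ B * (L ^ g) ^ 2))) := by gcongr
        _ = ((U : ℝ) * W / L ^ g) ^ 2 := by
            field_simp
    refine (sum_le_sum e2).trans ?_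
    rw [sum_const, nsmul_eq_mul, Nat.card_Icc, Nat.add_sub_cancel]
    have e6 : 0 ≤ (2 * R / (X * Y) + 1) * ((U : ℝ) * W / L ^ g) := by positivity
    calc (Q : ℝ) * ((2 * R / (X * Y) + 1) * ((U : ℝ) * W / L ^ g)) ≤ L ^ B * ((2 * R / (X * Y) + 1) * ((U : ℝ) * W / L ^ g)) := by gcongr
      _ = _ := by ring
  have hmar := markov I F hF0 (fun i => GC z X h d a1 (c i)) _ _ hbad htot
  refine bl_num L X Y h W U _ _ d B a1 a2 A g hL hX0 hY0 hh0 hW0 ?_ (le_of_eq ?_) (by exact_mod_cast hXY) hhXY hg hmar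
  · rw [hU]; push_cast; ring
  · rfl

end Pool.Agent.H79.U
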