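import Pool.Agent.H79.U.G6

/-! The mean square over the shifts. -/

set_option autoImplicit false

namespace Pool.Agent.H79.U

open Finset
open Pool.Agent.helper24_UT
open Pool.Agent.H807R2.Dav (ee norm_ee ee_add)
open Pool.Agent.helper24_UT.Wpar (sum_period parseval conj_ee)
open Pool.Agent.H79.V.Six
open Pool.Agent.H79.V.Cir (pars ee_add3)

lemma qa_bound (a t : ℤ) (Y n : ℕ) (ha : 1 ≤ a) (ht : 1 ≤ t) (hn : n < Y) : 0 ≤ qa a t n ∧ qa a t n ≤ a * (Y : ℤ) ^ 2 + t * Y := by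
  have h2 : (n : ℤ) ≤ Y := by exact_mod_cast hn.le
  have h3 : (0 : ℤ) ≤ n := Nat.cast_nonneg n
  have h4 : (n : ℤ) ^ 2 ≤ (Y : ℤ) ^ 2 := by nlinarith
  unfold qa
  constructor
  · positivity
  · have e1 := mul_le_mul_of_nonneg_left h4 (show 0 ≤ a by omega)
    have e2 := mul_le_mul_of_nonneg_left h2 (show 0 ≤ t by omega)
    linarith

/-- the mean square over the shifts -/
theorem msq (g : ℤ → ℝ) (x c κ a t : ℤ) (W Y K : ℕ) (ha : 1 ≤ a) (ht : 1 ≤ t) (w : ℕ → ℝ) (hw : ∀ n, |w n| ≤ 1) (D V : ℝ)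
    (hV : ∑ m ∈ Ioc x (x + W), g m ^ 2 ≤ V) (hD : ∀ α, ‖sw g W x α‖ ≤ D)
    (hsupp : ∀ n ∈ range Y, ∀ k, κ < k → k ≤ κ + K → x < c + qa a t n + k ∧ c + qa a t n + k ≤ x + W) :
    (∑ k ∈ Ioc κ (κ + K), (∑ n ∈ range Y, w n * g (c + qa a t n + k)) ^ 2) ^ 3 ≤ V ^ 2 * D ^ 2 * Ja a t Y := by
  classical
  have hV0 : 0 ≤ V := (sum_nonneg fun m _ => sq_nonneg (g m)).trans hV
  have hD0 : 0 ≤ D := (norm_nonneg _).trans (hD 0)
  rcases Nat.eq_zero_or_pos Y with hY | hY
  · rw [hY]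
    simp only [range_zero, sum_empty]
    have : (0 : ℝ) ≤ V ^ 2 * D ^ 2 * Ja a t 0 := by positivity
    simpa using this
  set P : ℤ := a * (Y : ℤ) ^ 2 + t * Y with hP
  have hP0 : 0 ≤ P := by positivity
  obtain ⟨M, hM1, hM2⟩ : ∃ M : ℕ, 3 * P + W < M ∧ 0 < M := ⟨(3 * P + W).toNat + 1, by omega, by omega⟩
  have hM0 : (0 : ℝ) < M := by exact_mod_cast hM2
  set C : ℤ → ℝ := fun k => ∑ n ∈ range Y, w n * (if x < c + qa a t n + k ∧ c + qa a t n + k ≤ x + W then g (c + qa a t n + k) else 0) with hC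
  set R : Finset ℤ := Ioc (x - c - P) (x + W - c) with hR
  have hpar := parseval M hM2 R (by
    intro i hi j hj hd
    rw [hR, mem_Ioc] at hi hj
    by_contra hne
    have h1 := Int.le_of_dvd (show 0 < |i - j| from abs_pos.2 (by omega)) ((dvd_abs _ _).2 hd)
    have h2 : |i - j| < P + W := by rw [abs_lt]; omega
    omega) (fun k => (C k : ℂ))
  have hfac : ∀ j : ℕ, ‖∑ k ∈ R, (C k : ℂ) * ee (-((k : ℝ) * j / M))‖ = ‖sw g W x ((j : ℝ) / M)‖ * ‖Ak a t Y M w j‖ := by
    intro j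
    have h1 : ∑ k ∈ R, (C k : ℂ) * ee (-((k : ℝ) * j / M)) =
        (starRingEnd ℂ) (sw g W x ((j : ℝ) / M)) * (starRingEnd ℂ) (Ak a t Y M w j) * ee ((c : ℝ) * j / M) := by
      have h2 : ∀ n ∈ range Y, ∑ k ∈ R, (w n : ℂ) * ((if x < c + qa a t n + k ∧ c + qa a t n + k ≤ x + W then g (c + qa a t n + k) else 0 : ℝ) : ℂ) * ee (-((k : ℝ) * j / M)) =
          ∑ m ∈ Ioc x (x + W), (w n : ℂ) * (g m : ℂ) * ee (-(((m - c - qa a t n : ℤ) : ℝ) * j / M)) := by
        intro n hn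
        have hqn := qa_bound a t Y n ha ht (mem_range.1 hn)
        symm
        apply sum_bij_ne_zero (fun m _ _ => m - c - qa a t n)
        · intro m hm _
          rw [mem_Ioc] at hm
          rw [hR, mem_Ioc]
          omega
        · intro m _ _ m' _ _ h
          omega
        · intro k hk hne
          have h3 : x < c + qa a t n + k ∧ c + qa a t n + k ≤ x + W := by
            by_contra hcon
            rw [if_neg hcon] at hne
            simp at hne
          refine ⟨c + qa a t n + k, mem_Ioc.2 h3, ?_, by ring⟩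
          rw [if_pos h3] at hne
          have e1 : c + qa a t n + k - c - qa a t n = k := by ring
          rw [e1]
          exact hne
        · intro m hm _
          rw [mem_Ioc] at hm
          have e1 : c + qa a t n + (m - c - qa a t n) = m := by ring
          rw [e1, if_pos hm]
      calc ∑ k ∈ R, (C k : ℂ) * ee (-((k : ℝ) * j / M))
          = ∑ k ∈ R, ∑ n ∈ range Y, (w n : ℂ) * ((if x < c + qa a t n + k ∧ c + qa a t n + k ≤ x + W then g (c + qa a t n + k) else 0 : ℝ) : ℂ) * ee (-((k : ℝ) * j / M)) := by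
            refine sum_congr rfl fun k _ => ?_
            rw [hC]
            push_cast
            rw [sum_mul]
        _ = ∑ n ∈ range Y, ∑ m ∈ Ioc x (x + W), (w n : ℂ) * (g m : ℂ) * ee (-(((m - c - qa a t n : ℤ) : ℝ) * j / M)) := by
            rw [sum_comm]
            exact sum_congr rfl h2
        _ = _ := by
            unfold sw Ak
            rw [map_sum, map_sum, sum_mul_sum, sum_mul, sum_comm]
            refine sum_congr rfl fun m _ => ?_
            rw [sum_mul]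
            refine sum_congr rfl fun n _ => ?_
            rw [map_mul, map_mul, Complex.conj_ofReal, Complex.conj_ofReal, conj_ee, conj_ee]
            have e1 : (-(((m - c - qa a t n : ℤ) : ℝ) * j / M)) = -((m : ℝ) * ((j : ℝ) / M)) + - -(((qa a t n : ℤ) : ℝ) * j / M) + (c : ℝ) * j / M := by
              push_cast
              ring
            rw [e1, ee_add3]
            ring
    rw [h1, norm_mul, norm_mul, norm_ee, mul_one, RCLike.norm_conj, RCLike.norm_conj]
  have hS : M * ∑ k ∈ R, C k ^ 2 = ∑ j ∈ range M, ‖sw g W x ((j : ℝ) / M)‖ ^ 2 * ‖Ak a t Y M w j‖ ^ 2 := by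
    have e1 : ∀ k : ℤ, ‖(C k : ℂ)‖ ^ 2 = C k ^ 2 := by
      intro k
      rw [Complex.norm_real, Real.norm_eq_abs, sq_abs]
    simp_rw [e1] at hpar
    rw [← hpar]
    refine sum_congr rfl fun j _ => ?_
    rw [hfac j, mul_pow]
  have hle : ∑ k ∈ Ioc κ (κ + K), (∑ n ∈ range Y, w n * g (c + qa a t n + k)) ^ 2 ≤ ∑ k ∈ R, C k ^ 2 := by
    have e1 : ∀ k ∈ Ioc κ (κ + K), (∑ n ∈ range Y, w n * g (c + qa a t n + k)) ^ 2 = C k ^ 2 := by
      intro k hk
      rw [mem_Ioc] at hk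
      rw [hC]
      dsimp only
      congr 1
      refine sum_congr rfl fun n hn => ?_
      rw [if_pos (hsupp n hn k hk.1 hk.2)]
    rw [sum_congr rfl e1]
    apply sum_le_sum_of_subset_of_nonneg
    · intro k hk
      rw [mem_Ioc] at hk
      have h1 := hsupp 0 (mem_range.2 hY) k hk.1 hk.2
      have h2 : qa a t 0 = 0 := by unfold qa; push_cast; ring
      rw [h2] at h1
      rw [hR, mem_Ioc]
      omega
    · intro k _ _
      exact sq_nonneg _
  set S : ℝ := ∑ k ∈ R, C k ^ 2 with hSdef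
  have hS0 : 0 ≤ S := sum_nonneg fun k _ => sq_nonneg _
  have h1 := holder3 (range M) (fun j => ‖sw g W x ((j : ℝ) / M)‖ ^ 2) (fun j => ‖Ak a t Y M w j‖ ^ 2)
    (fun _ _ => by positivity) (fun _ _ => by positivity)
  rw [← hS] at h1
  have h2 : ∑ j ∈ range M, ‖sw g W x ((j : ℝ) / M)‖ ^ 2 ≤ M * V := by
    rw [pars g W M x hM2 (by omega)]
    exact mul_le_mul_of_nonneg_left hV hM0.le
  have h3 : ∑ j ∈ range M, ‖sw g W x ((j : ℝ) / M)‖ ^ 2 * (‖Ak a t Y M w j‖ ^ 2) ^ 3 ≤ D ^ 2 * (M * Ja a t Y) := by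
    have h4 : ∀ j ∈ range M, ‖sw g W x ((j : ℝ) / M)‖ ^ 2 * (‖Ak a t Y M w j‖ ^ 2) ^ 3 ≤ D ^ 2 * ‖Ak a t Y M w j‖ ^ 6 := by
      intro j _
      rw [← pow_mul]
      apply mul_le_mul_of_nonneg_right _ (by positivity)
      exact pow_le_pow_left₀ (norm_nonneg _) (hD _) 2
    refine (sum_le_sum h4).trans ?_
    rw [← mul_sum]
    apply mul_le_mul_of_nonneg_left _ (by positivity)
    exact six_mom a t Y M ha ht (by omega) w hw
  have h5 : (M * S) ^ 3 ≤ (M * V) ^ 2 * (D ^ 2 * (M * Ja a t Y)) := by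
    refine h1.trans ?_
    apply mul_le_mul _ h3 (sum_nonneg fun j _ => by positivity) (by positivity)
    exact pow_le_pow_left₀ (sum_nonneg fun j _ => by positivity) h2 2
  have h6 : (M : ℝ) ^ 3 * S ^ 3 ≤ (M : ℝ) ^ 3 * (V ^ 2 * D ^ 2 * Ja a t Y) := by
    calc _ = (M * S) ^ 3 := by ring
      _ ≤ _ := h5
      _ = _ := by ring
  have h7 := le_of_mul_le_mul_left h6 (by positivity)
  refine le_trans ?_ h7
  exact pow_le_pow_left₀ (sum_nonneg fun k _ => sq_nonneg _) hle 3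

end Pool.Agent.H79.U
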