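import Pool.Agent.H79.U.GB
import Pool.Agent.H79.U.Gms
import Pool.Agent.H79.V.Ct

/-! The primes minus the normalized sieve model, without the logarithmic weight. -/

set_option autoImplicit false

namespace Pool.Agent.H79.U

open Finset
open Pool.Agent.helper24_UT
open Pool.Agent.H807R2.Dav (ee norm_ee ee_add)
open Pool.Agent.H373R2.T7 (lamI lamzI lamz Vz pz mem_pz ev_log' ev_L' Vz_pos Vz_inv_small lamI_nonneg lamzI_nonneg lamP lamP_nonneg lamP_le pp_sum)

/-- the indicator function of the primes -/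
noncomputable def pr1 (m : ℤ) : ℝ := if m.toNat.Prime then 1 else 0

/-- the sieve model, with the density of the primes -/
noncomputable def mu1 (z : ℕ) (m : ℤ) : ℝ := lamzI z m / Real.log m

/-- the difference -/
noncomputable def E1 (z : ℕ) (m : ℤ) : ℝ := pr1 m - mu1 z m

lemma pr1_01 (m : ℤ) : 0 ≤ pr1 m ∧ pr1 m ≤ 1 := by
  unfold pr1
  split_ifs <;> norm_num

lemma lamzI_le (z : ℕ) (m : ℤ) : lamzI z m ≤ (Vz z)⁻¹ := by
  unfold lamzI lamz
  have h := (inv_pos.2 (Vz_pos z)).le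
  split_ifs
  · exact le_rfl
  · exact h
  · exact h

lemma mu1_01 (z : ℕ) (m : ℤ) (L : ℝ) (hL : 0 < L) (hm : L ≤ Real.log m) (hV : (Vz z)⁻¹ ≤ L) : 0 ≤ mu1 z m ∧ mu1 z m ≤ 1 := by
  unfold mu1
  have h1 := lamzI_nonneg z m
  have h2 := lamzI_le z m
  constructor
  · apply div_nonneg h1 (by linarith)
  · rw [div_le_one (by linarith)]
    linarith

lemma E1_abs (z : ℕ) (m : ℤ) (L : ℝ) (hL : 0 < L) (hm : L ≤ Real.log m) (hV : (Vz z)⁻¹ ≤ L) : |E1 z m| ≤ 1 := by
  have h1 := pr1_01 m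
  have h2 := mu1_01 z m L hL hm hV
  unfold E1
  rw [abs_le]
  constructor <;> linarith

lemma pr1_lamP (m : ℤ) (hm : 1 < m) : pr1 m = lamP m / Real.log m := by
  unfold pr1 lamP
  have h1 : ((m.toNat : ℕ) : ℝ) = (m : ℝ) := by
    have : (m.toNat : ℤ) = m := Int.toNat_of_nonneg (by omega)
    exact_mod_cast this
  have h2 : 0 < Real.log (m : ℝ) := Real.log_pos (by exact_mod_cast hm)
  split_ifs
  · rw [h1, div_self h2.ne']
  · rw [zero_div]

/-- the prime powers in a window -/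
lemma pp_win (x K : ℕ) (hx : 1 ≤ x + K) : ∑ m ∈ Ioc (x : ℤ) (x + K), (lamI m - lamP m) ≤ 2 * √((x : ℝ) + K) * Real.log ((x : ℝ) + K) := by
  have h1 := pp_sum K (x + K) (x : ℤ) hx (by
    intro n hn
    rw [mem_Icc] at hn
    push_cast
    omega)
  push_cast at h1
  refine le_trans (le_of_eq ?_) h1
  symm
  apply sum_bij (fun (n : ℕ) (_ : n ∈ Icc 1 K) => (n : ℤ) + (x : ℤ))
  · intro n hn
    rw [mem_Icc] at hn
    rw [mem_Ioc]
    omega
  · intro a _ b _ h
    omega
  · intro m hm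
    rw [mem_Ioc] at hm
    exact ⟨(m - x).toNat, by rw [mem_Icc]; omega, by omega⟩
  · intro n _
    rfl

/-- the exponential sums without the logarithmic weight -/
theorem E1_sup (z x K : ℕ) (L : ℝ) (α : ℝ) (hL : 1 ≤ L) (hx : 3 ≤ x) (hLx : Real.log ((x : ℝ) + K) ≤ 3 * L) (hV : (Vz z)⁻¹ ≤ L) :
    ‖sw (E1 z) K (x : ℤ) α‖ ≤ ‖sw (Ed z) K (x : ℤ) α‖ + 6 * L * √((x : ℝ) + K) + 3 * L * K ^ 2 / x := by
  have hx0 : (3 : ℝ) ≤ x := by exact_mod_cast hx
  have hlx : 1 ≤ Real.log (x : ℝ) := by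
    rw [Real.le_log_iff_exp_le (by linarith)]
    have := Real.exp_one_lt_d9
    linarith
  set l0 : ℝ := Real.log (x : ℝ) with hl0
  -- the decomposition
  have hdec : sw (E1 z) K (x : ℤ) α = ((1 / l0 : ℝ) : ℂ) * sw (Ed z) K (x : ℤ) α + ∑ m ∈ Ioc (x : ℤ) (x + K), ((E1 z m - Ed z m / l0 : ℝ) : ℂ) * ee (m * α) := by
    unfold sw
    rw [mul_sum, ← sum_add_distrib]
    refine sum_congr rfl fun m _ => ?_
    push_cast
    ring
  have hterm : ∀ m ∈ Ioc (x : ℤ) (x + K), ‖((E1 z m - Ed z m / l0 : ℝ) : ℂ) * ee (m * α)‖ ≤ (lamI m - lamP m) + 3 * L * (K / x) := by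
    intro m hm
    rw [mem_Ioc] at hm
    rw [norm_mul, norm_ee, mul_one, Complex.norm_real, Real.norm_eq_abs]
    have hmx : (x : ℝ) ≤ m := by exact_mod_cast hm.1.le
    have hmx2 : (m : ℝ) ≤ x + K := by exact_mod_cast hm.2
    have hlm : l0 ≤ Real.log (m : ℝ) := Real.log_le_log (by linarith) hmx
    have hd := V.log_diff x m (by linarith) hmx
    rw [← hl0] at hd
    have hlm0 : 1 ≤ Real.log (m : ℝ) := by linarith
    have e1 : E1 z m - Ed z m / l0 = -(lamI m - lamP m) / Real.log m + Ed z m * (1 / Real.log m - 1 / l0) := by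
      unfold E1 Ed mu1
      rw [pr1_lamP m (by omega)]
      field_simp
      ring
    rw [e1]
    refine (abs_add_le _ _).trans ?_
    have h1 := lamP_le m
    have h2 : |(-(lamI m - lamP m)) / Real.log m| ≤ lamI m - lamP m := by
      rw [abs_div, abs_neg, abs_of_nonneg (by linarith), abs_of_nonneg (by linarith)]
      exact div_le_self (by linarith) hlm0
    have h3 : |Ed z m| ≤ 3 * L := Mk.Ed_bound z m L ((x : ℝ) + K) (by linarith) hmx2 hLx hV
    have h4 : |1 / Real.log m - 1 / l0| ≤ K / x := by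
      have e2 : 1 / Real.log m - 1 / l0 = (l0 - Real.log m) * (1 / (Real.log m * l0)) := by
        field_simp
      rw [e2, abs_mul, abs_sub_comm]
      have e3 : |1 / (Real.log (m : ℝ) * l0)| ≤ 1 := by
        rw [abs_of_nonneg (by positivity), div_le_one (by positivity)]
        exact one_le_mul_of_one_le_of_one_le hlm0 hlx
      have e4 : ((m : ℝ) - x) / x ≤ K / x := by
        apply div_le_div_of_nonneg_right (by linarith) (by linarith)
      calc |Real.log (m : ℝ) - l0| * |1 / (Real.log (m : ℝ) * l0)| ≤ (K / x) * 1 := by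
            apply mul_le_mul (hd.trans e4) e3 (abs_nonneg _) (by positivity)
        _ = K / x := mul_one _
    rw [abs_mul]
    have h5 : |Ed z m| * |1 / Real.log m - 1 / l0| ≤ 3 * L * (K / x) := mul_le_mul h3 h4 (abs_nonneg _) (by linarith)
    linarith
  rw [hdec]
  refine (norm_add_le _ _).trans ?_
  have h1 : ‖((1 / l0 : ℝ) : ℂ) * sw (Ed z) K (x : ℤ) α‖ ≤ ‖sw (Ed z) K (x : ℤ) α‖ := by
    rw [norm_mul, Complex.norm_real, Real.norm_eq_abs, abs_of_nonneg (by positivity)]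
    have : 1 / l0 ≤ 1 := by rw [div_le_one (by linarith)]; exact hlx
    exact mul_le_of_le_one_left (norm_nonneg _) this
  have h2 : ‖∑ m ∈ Ioc (x : ℤ) (x + K), ((E1 z m - Ed z m / l0 : ℝ) : ℂ) * ee (m * α)‖ ≤
      2 * √((x : ℝ) + K) * Real.log ((x : ℝ) + K) + 3 * L * K ^ 2 / x := by
    refine (norm_sum_le _ _).trans ((sum_le_sum hterm).trans ?_)
    rw [sum_add_distrib, sum_const, nsmul_eq_mul, Int.card_Ioc]
    have e1 : ((x : ℤ) + (K : ℤ) - x).toNat = K := by omega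
    rw [e1]
    have e2 := pp_win x K (by omega)
    have e3 : (K : ℝ) * (3 * L * (K / x)) = 3 * L * K ^ 2 / x := by ring
    linarith
  have h3 : 2 * √((x : ℝ) + K) * Real.log ((x : ℝ) + K) ≤ 6 * L * √((x : ℝ) + K) := by
    have e1 : 0 ≤ √((x : ℝ) + K) := Real.sqrt_nonneg _
    nlinarith
  linarith

end Pool.Agent.H79.U
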