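import Pool.Agent.H79.U.GE

/-! The mean square over the shifts for the primes minus the model, at the values of a quadratic polynomial. -/

set_option autoImplicit false

namespace Pool.Agent.H79.U

open Finset
open Pool.Agent.helper24_UT
open Pool.Agent.H807R2.Dav (ee norm_ee ee_add)
open Pool.Agent.H373R2.T7 (lamI lamzI lamz Vz pz mem_pz ev_log' ev_L' Vz_pos Vz_inv_small lamI_nonneg lamzI_nonneg lamP lamP_nonneg lamP_le pp_sum)

/-- the quadratic polynomial -/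
def FF (a : ℕ) (b : ℤ) (n : ℕ) : ℤ := (a : ℤ) * (n : ℤ) ^ 2 + b * n

lemma FF_add (a : ℕ) (b : ℤ) (T m : ℕ) : FF a b (T + m) = FF a b T + qa a (2 * a * T + b) m := by
  unfold FF qa
  push_cast
  ring

lemma one_block (a : ℕ) (b : ℤ) (ha : 1 ≤ a) (X Y z T : ℕ) (κ : ℤ) (D : ℝ) (hX : 1 ≤ X) (hb : |b| ≤ X) (hY1 : 1 ≤ Y) (hYX : Y ≤ X)
    (hT1 : X ≤ T) (hT2 : T ≤ 2 * X) (w : ℕ → ℝ) (hw : ∀ n, |w n| ≤ 1)
    (hE : ∀ m : ℤ, FF a b T + κ < m → m ≤ FF a b T + κ + ((6 * a + 1) * X * Y : ℕ) → |E1 z m| ≤ 1)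
    (hD : ∀ α, ‖sw (E1 z) ((6 * a + 1) * X * Y) (FF a b T + κ) α‖ ≤ D) :
    (∑ k ∈ Ioc κ (κ + (X * Y : ℕ)), (∑ n ∈ range Y, w n * E1 z (FF a b (T + n) + k)) ^ 2) ^ 3 ≤
      (((6 * a + 1) * X * Y : ℕ) : ℝ) ^ 2 * D ^ 2 * ((1 + 6 * (Y : ℝ) ^ 2 / X) * (12 * (Y : ℝ) ^ 3 * (1 + Real.log Y) ^ 2)) := by
  have hab := abs_le.1 hb
  have hXZ : (1 : ℤ) ≤ X := by exact_mod_cast hX
  have haZ : (1 : ℤ) ≤ a := by exact_mod_cast ha
  have hT1Z : (X : ℤ) ≤ T := by exact_mod_cast hT1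
  have hT2Z : (T : ℤ) ≤ 2 * X := by exact_mod_cast hT2
  have hYXZ : (Y : ℤ) ≤ X := by exact_mod_cast hYX
  have hYZ : (1 : ℤ) ≤ Y := by exact_mod_cast hY1
  set t : ℤ := 2 * a * T + b with ht
  have ht1 : (a : ℤ) * X ≤ t := by
    rw [ht]
    nlinarith
  have ht2 : t ≤ 5 * a * X := by
    rw [ht]
    nlinarith
  have ht0 : 1 ≤ t := le_trans (by nlinarith) ht1
  have h1 := msq (E1 z) (FF a b T + κ) (FF a b T) κ a t ((6 * a + 1) * X * Y) Y (X * Y) haZ ht0 w hw D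
    ((((6 * a + 1) * X * Y : ℕ) : ℝ)) (by
      have e1 : ∀ m ∈ Ioc (FF a b T + κ) (FF a b T + κ + (((6 * a + 1) * X * Y : ℕ) : ℤ)), E1 z m ^ 2 ≤ 1 := by
        intro m hm
        rw [mem_Ioc] at hm
        have := hE m hm.1 hm.2
        rw [← sq_abs]
        exact pow_le_one₀ (abs_nonneg _) this
      refine (sum_le_sum e1).trans ?_
      rw [sum_const, nsmul_eq_mul, mul_one, Int.card_Ioc]
      have : (FF a b T + κ + (((6 * a + 1) * X * Y : ℕ) : ℤ) - (FF a b T + κ)).toNat = (6 * a + 1) * X * Y := by omega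
      rw [this]) hD (by
      intro n hn k hk1 hk2
      have hq := qa_bound a t Y n haZ ht0 (mem_range.1 hn)
      constructor
      · linarith
      · have e1 : (a : ℤ) * (Y : ℤ) ^ 2 ≤ a * X * Y := by
          have e0 : (Y : ℤ) * Y ≤ X * Y := mul_le_mul_of_nonneg_right hYXZ (by omega)
          have e00 := mul_le_mul_of_nonneg_left e0 (show (0 : ℤ) ≤ a by omega)
          linarith
        have e2 : t * Y ≤ 5 * a * X * Y := mul_le_mul_of_nonneg_right ht2 (by omega)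
        push_cast at hk2 ⊢
        nlinarith)
  have h2 : ∀ k : ℤ, ∀ n : ℕ, FF a b T + qa a t n + k = FF a b (T + n) + k := by
    intro k n
    rw [FF_add]
  simp_rw [h2] at h1
  refine h1.trans ?_
  apply mul_le_mul_of_nonneg_left _ (by positivity)
  refine (six_a a t Y haZ ht0 hY1).trans ?_
  apply mul_le_mul_of_nonneg_right _ (by positivity)
  have hX0 : (0 : ℝ) < X := by exact_mod_cast hX
  have ha0 : (0 : ℝ) < a := by exact_mod_cast ha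
  have htR : (a : ℝ) * X ≤ t := by exact_mod_cast ht1
  have haR : (((a : ℕ) : ℤ) : ℝ) = (a : ℝ) := by push_cast; rfl
  rw [haR]
  have e1 : 6 * (a : ℝ) * (Y : ℝ) ^ 2 / t ≤ 6 * (Y : ℝ) ^ 2 / X := by
    have e2 : 6 * (Y : ℝ) ^ 2 / X = 6 * a * (Y : ℝ) ^ 2 / (a * X) := by
      field_simp
    rw [e2]
    apply div_le_div_of_nonneg_left (by positivity) (by positivity) htR
  linarith

/-- the numbers of one block -/
lemma block_num (X Y L W D S : ℝ) (A d c : ℕ) (hX : 0 < X) (hY : 0 < Y) (hL : 1 ≤ L) (hYX : X ≤ Y ^ 2) (hW : W = (6 * c + 1) * X * Y)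
    (hD0 : 0 ≤ D) (hD : D ≤ 3 * W / L ^ d) (hd : 2 * d = 3 * A + 9) (hLc : 3024 * (6 * (c : ℝ) + 1) ^ 4 ≤ L)
    (hlog : Real.log Y ≤ L) (hlog0 : 0 ≤ Real.log Y)
    (hS : S ^ 3 ≤ W ^ 2 * D ^ 2 * ((1 + 6 * Y ^ 2 / X) * (12 * Y ^ 3 * (1 + Real.log Y) ^ 2))) :
    S ≤ X * Y * Y ^ 2 / L ^ (A + 2) := by
  have hL0 : 0 < L := by linarith
  have hW0 : 0 < W := by rw [hW]; positivity
  apply le_of_pow_le_pow_left₀ (show (3 : ℕ) ≠ 0 by norm_num) (by positivity)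
  refine hS.trans ?_
  have e1 : (1 + 6 * Y ^ 2 / X) ≤ 7 * Y ^ 2 / X := by
    have : 1 ≤ Y ^ 2 / X := by rw [le_div_iff₀ hX]; linarith
    have e : 7 * Y ^ 2 / X = Y ^ 2 / X + 6 * Y ^ 2 / X := by ring
    linarith
  have e2 : (1 + Real.log Y) ^ 2 ≤ 4 * L ^ 2 := by
    have : 1 + Real.log Y ≤ 2 * L := by linarith
    calc (1 + Real.log Y) ^ 2 ≤ (2 * L) ^ 2 := pow_le_pow_left₀ (by linarith) this 2
      _ = 4 * L ^ 2 := by ring
  calc W ^ 2 * D ^ 2 * ((1 + 6 * Y ^ 2 / X) * (12 * Y ^ 3 * (1 + Real.log Y) ^ 2))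
      ≤ W ^ 2 * (3 * W / L ^ d) ^ 2 * ((7 * Y ^ 2 / X) * (12 * Y ^ 3 * (4 * L ^ 2))) := by gcongr
    _ = 3024 * (6 * (c : ℝ) + 1) ^ 4 * ((X * Y * Y ^ 2) ^ 3 * L ^ 2 / L ^ (2 * d)) := by
        rw [hW, mul_comm 2 d, pow_mul L d 2]
        field_simp
        ring
    _ ≤ L * ((X * Y * Y ^ 2) ^ 3 * L ^ 2 / L ^ (2 * d)) := by
        apply mul_le_mul_of_nonneg_right hLc (by positivity)
    _ = (X * Y * Y ^ 2 / L ^ (A + 2)) ^ 3 := by
        have e3 : (L ^ (A + 2)) ^ 3 * L ^ 3 = L ^ (2 * d) := by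
          rw [hd, ← pow_mul, ← pow_add]
          congr 1
          ring
        rw [div_pow, ← e3]
        field_simp

end Pool.Agent.H79.U
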