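import Pool.Agent.H79.U.GM

/-! The mean square over the shifts: the base scale. -/

set_option autoImplicit false

namespace Pool.Agent.H79.U

open Finset
open Pool.Agent.helper24_UT
open Pool.Agent.H807R2.Dav (ee norm_ee ee_add)
open Pool.Agent.H373R2.T7 (lamI lamzI lamz Vz pz mem_pz ev_log' ev_L' Vz_pos Vz_inv_small lamI_nonneg lamzI_nonneg lamP lamP_nonneg lamP_le pp_sum)

lemma hgt (a s X T : ℕ) (b κ : ℤ) (hs1 : s ^ 2 ≤ 2 * a) (hs2 : 2 * a + 1 ≤ 4 * s ^ 2) (hb : 8 * |b| ≤ X) (ha : 1 ≤ a)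
    (hT1 : X ≤ T) (hT2 : T ≤ 2 * X) (hκ1 : -(X : ℤ) ^ 2 ≤ 4 * κ) (hκ2 : κ ≤ 2 * (X : ℤ) ^ 2) :
    (((s * X) ^ 2 : ℕ) : ℤ) ≤ 4 * (FF a b T + κ) ∧ FF a b T + κ ≤ 12 * (((s * X) ^ 2 : ℕ) : ℤ) := by
  have hab := abs_le.1 (show |b| ≤ |b| from le_rfl)
  have hb0 := abs_nonneg b
  have hXZ : (0 : ℤ) ≤ X := Nat.cast_nonneg _
  have haZ : (1 : ℤ) ≤ a := by exact_mod_cast ha
  have hT1Z : (X : ℤ) ≤ T := by exact_mod_cast hT1
  have hT2Z : (T : ℤ) ≤ 2 * X := by exact_mod_cast hT2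
  have hs1Z : (s : ℤ) ^ 2 ≤ 2 * a := by exact_mod_cast hs1
  have hs2Z : 2 * (a : ℤ) + 1 ≤ 4 * (s : ℤ) ^ 2 := by exact_mod_cast hs2
  have hX2 : (0 : ℤ) ≤ (X : ℤ) ^ 2 := sq_nonneg _
  have hTX : (X : ℤ) ^ 2 ≤ (T : ℤ) ^ 2 := by nlinarith
  have hTX2 : (T : ℤ) ^ 2 ≤ 4 * (X : ℤ) ^ 2 := by nlinarith
  have e1 : 8 * (|b| * T) ≤ X * T := by nlinarith
  have e2 : (X : ℤ) * T ≤ (T : ℤ) ^ 2 := by nlinarith
  have e3 : (X : ℤ) * T ≤ 2 * (X : ℤ) ^ 2 := by nlinarith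
  have e4 : -(|b| * T) ≤ b * T ∧ b * T ≤ |b| * T := by
    constructor
    · have := mul_le_mul_of_nonneg_right hab.1 (show (0 : ℤ) ≤ T by omega)
      linarith
    · exact mul_le_mul_of_nonneg_right hab.2 (by omega)
  unfold FF
  push_cast
  rw [mul_pow]
  have f1 := mul_le_mul_of_nonneg_right hs1Z hX2
  have f2 := mul_le_mul_of_nonneg_right hs2Z hX2
  have f3 := mul_le_mul_of_nonneg_left hTX (show (0 : ℤ) ≤ a by omega)
  have f4 := mul_le_mul_of_nonneg_left hTX2 (show (0 : ℤ) ≤ a by omega)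
  have f5 : (T : ℤ) ^ 2 ≤ a * (T : ℤ) ^ 2 := by nlinarith
  constructor
  · nlinarith
  · nlinarith

lemma centers (a s X Y : ℕ) (b κ : ℤ) (hs : s + 1 ≤ 2 * a) (hb : |b| ≤ X) (i j : ℕ) (hij : j ≤ i) :
    ((s * X : ℕ) : ℝ) * Y * ((i : ℝ) - j) ≤ ((FF a b (X + i * Y) + κ : ℤ) : ℝ) - ((FF a b (X + j * Y) + κ : ℤ) : ℝ) := by
  have hij' : (0 : ℝ) ≤ (i : ℝ) - j := by
    have : (j : ℝ) ≤ i := by exact_mod_cast hij
    linarith
  have hbR : |(b : ℝ)| ≤ X := by exact_mod_cast hb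
  have hb1 := (abs_le.1 hbR).1
  have hsR : (s : ℝ) + 1 ≤ 2 * a := by exact_mod_cast hs
  have hX : (0 : ℝ) ≤ X := Nat.cast_nonneg _
  have hY : (0 : ℝ) ≤ Y := Nat.cast_nonneg _
  have ha : (0 : ℝ) ≤ a := Nat.cast_nonneg _
  have hi : (0 : ℝ) ≤ i := Nat.cast_nonneg _
  have hj : (0 : ℝ) ≤ j := Nat.cast_nonneg _
  unfold FF
  push_cast
  have e : (a : ℝ) * ((X : ℝ) + i * Y) ^ 2 + b * (X + i * Y) + κ - (a * ((X : ℝ) + j * Y) ^ 2 + b * (X + j * Y) + κ) =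
      (Y * ((i : ℝ) - j)) * (a * (2 * X + (i + j) * Y) + b) := by ring
  rw [e]
  have e1 : (s : ℝ) * X ≤ a * (2 * X + (i + j) * Y) + b := by
    have e2 : 0 ≤ (a : ℝ) * ((i + j) * Y) := by positivity
    have e3 := mul_le_mul_of_nonneg_right hsR hX
    nlinarith
  have e2 := mul_le_mul_of_nonneg_left e1 (mul_nonneg hY hij')
  linarith

/-- summing over blocks -/
lemma sum_blocks (f : ℕ → ℝ) (Y : ℕ) : ∀ I : ℕ, ∑ n ∈ range (I * Y), f n = ∑ i ∈ range I, ∑ m ∈ range Y, f (i * Y + m) := by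
  intro I
  induction I with
  | zero => simp
  | succ I ih => rw [add_mul, one_mul, sum_range_add, ih, sum_range_succ]

lemma sum_w (g : ℕ → ℝ) (X Y : ℕ) (hY : 1 ≤ Y) :
    ∑ n ∈ Ioc X (2 * X), g n = ∑ i ∈ range (X / Y + 1), ∑ m ∈ range Y, (if X < X + i * Y + m ∧ X + i * Y + m ≤ 2 * X then g (X + i * Y + m) else 0) := by
  have h1 := sum_blocks (fun n => if X < X + n ∧ X + n ≤ 2 * X then g (X + n) else 0) Y (X / Y + 1)
  have h2 : ∀ i m : ℕ, X + (i * Y + m) = X + i * Y + m := fun i m => by ring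
  simp only [h2] at h1
  rw [← h1]
  rw [← sum_filter]
  apply sum_bij (fun n _ => n - X)
  · intro n hn
    rw [mem_Ioc] at hn
    rw [mem_filter, mem_range]
    refine ⟨?_, by omega, by omega⟩
    have h3 := Nat.lt_div_mul_add (a := X) (b := Y) hY
    have h4 : (X / Y + 1) * Y = X / Y * Y + Y := by ring
    omega
  · intro n hn n' hn' h
    rw [mem_Ioc] at hn hn'
    omega
  · intro n hn
    rw [mem_filter] at hn
    exact ⟨X + n, by rw [mem_Ioc]; exact hn.2, by omega⟩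
  · intro n hn
    rw [mem_Ioc] at hn
    congr 1
    omega

/-- combining good and bad blocks -/
lemma combine {ι : Type*} [DecidableEq ι] (K : Finset ι) (I : ℕ) (G : Finset ℕ) (hG : G ⊆ range I) (c : ℕ → ι → ℝ) (S B : ℝ) (hS0 : 0 ≤ S)
    (hS : ∀ i ∈ G, ∑ k ∈ K, c i k ^ 2 ≤ S) (hB : ∀ k ∈ K, |∑ i ∈ range I \ G, c i k| ≤ B) :
    ∑ k ∈ K, (∑ i ∈ range I, c i k) ^ 2 ≤ 2 * (I : ℝ) ^ 2 * S + 2 * (K.card : ℝ) * B ^ 2 := by
  have h1 : ∀ k ∈ K, (∑ i ∈ range I, c i k) ^ 2 ≤ 2 * ((G.card : ℝ) * ∑ i ∈ G, c i k ^ 2) + 2 * B ^ 2 := by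
    intro k hk
    have e1 : ∑ i ∈ range I, c i k = ∑ i ∈ G, c i k + ∑ i ∈ range I \ G, c i k := by
      rw [add_comm]; exact (sum_sdiff hG).symm
    have e2 : (∑ i ∈ G, c i k) ^ 2 ≤ (G.card : ℝ) * ∑ i ∈ G, c i k ^ 2 := sq_sum_le_card_mul_sum_sq
    have e3 : (∑ i ∈ range I \ G, c i k) ^ 2 ≤ B ^ 2 := by
      rw [← sq_abs]
      exact pow_le_pow_left₀ (abs_nonneg _) (hB k hk) 2
    rw [e1]
    nlinarith [sq_nonneg (∑ i ∈ G, c i k - ∑ i ∈ range I \ G, c i k)]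
  refine (sum_le_sum h1).trans ?_
  rw [sum_add_distrib, sum_const, nsmul_eq_mul, ← mul_sum, ← mul_sum, sum_comm]
  have h2 : ∑ i ∈ G, ∑ k ∈ K, c i k ^ 2 ≤ (G.card : ℝ) * S := by
    refine (sum_le_sum hS).trans ?_
    rw [sum_const, nsmul_eq_mul]
  have h3 : (G.card : ℝ) ≤ I := by
    have := card_le_card hG
    rw [card_range] at this
    exact_mod_cast this
  have hG0 : (0 : ℝ) ≤ G.card := Nat.cast_nonneg _
  have h4 : (G.card : ℝ) * ∑ i ∈ G, ∑ k ∈ K, c i k ^ 2 ≤ (I : ℝ) ^ 2 * S := by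
    calc (G.card : ℝ) * ∑ i ∈ G, ∑ k ∈ K, c i k ^ 2 ≤ (G.card : ℝ) * ((G.card : ℝ) * S) := mul_le_mul_of_nonneg_left h2 hG0
      _ = (G.card : ℝ) ^ 2 * S := by ring
      _ ≤ (I : ℝ) ^ 2 * S := mul_le_mul_of_nonneg_right (pow_le_pow_left₀ hG0 h3 2) hS0
  linarith

end Pool.Agent.H79.U
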