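import Pool.Agent.H79.U.GN

/-! The mean square over the shifts: the base scale. -/

set_option autoImplicit false

namespace Pool.Agent.H79.U

open Finset
open Pool.Agent.helper24_UT
open Pool.Agent.H807R2.Dav (ee norm_ee ee_add)
open Pool.Agent.H373R2.T7 (lamI lamzI lamz Vz pz mem_pz ev_log' ev_L' Vz_pos Vz_inv_small lamI_nonneg lamzI_nonneg lamP lamP_nonneg lamP_le pp_sum)

/-- the length of the blocks -/
noncomputable def Yc (C X : ℕ) : ℕ := ⌈√(X : ℝ) * Real.log X ^ C⌉₊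

/-- the bound for one good window -/
lemma good_sup (X h s d C : ℕ) (L : ℝ) (a : ℕ) (hX : (1 : ℝ) ≤ X) (hL : 1 ≤ L) (hs1 : 1 ≤ s)
    (hh1 : (X : ℝ) * √(X : ℝ) ≤ h) (hh2 : (h : ℝ) ≤ 2 * (6 * a + 1) * (X * √(X : ℝ)) * L ^ C)
    (hr : 24 * (6 * (a : ℝ) + 1) * (s : ℝ) * L ^ (d + 1 + C) * 2 ≤ √(X : ℝ)) (z x : ℕ) (hx3 : 3 ≤ x) (hx1 : (X : ℝ) ^ 2 ≤ 4 * x)
    (hx2 : (x : ℝ) + h ≤ 16 * (s : ℝ) ^ 2 * (X : ℝ) ^ 2) (hLx : Real.log ((x : ℝ) + h) ≤ 3 * L) (hV : (Vz z)⁻¹ ≤ L)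
    (hE : ∀ α : ℝ, ‖sw (Ed z) h (x : ℤ) α‖ ≤ h / L ^ d) (α : ℝ) : ‖sw (E1 z) h (x : ℤ) α‖ ≤ 3 * h / L ^ d := by
  have h1 := E1_sup z x h L α hL hx3 hLx hV
  have h2 := hE α
  have hL0 : 0 < L := by linarith
  have hs0 : (1 : ℝ) ≤ s := by exact_mod_cast hs1
  have ha0 : (0 : ℝ) ≤ a := Nat.cast_nonneg _
  have hX0 : (0 : ℝ) < X := by linarith
  have hq : 0 < √(X : ℝ) := Real.sqrt_pos.2 hX0
  have hqq : √(X : ℝ) * √(X : ℝ) = X := Real.mul_self_sqrt hX0.le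
  have hLC : (1 : ℝ) ≤ L ^ C := one_le_pow₀ hL
  have hLd : (1 : ℝ) ≤ L ^ d := one_le_pow₀ hL
  have hr' : L ^ (d + 1 + C) = L ^ d * L * L ^ C := by rw [pow_add, pow_add, pow_one]
  rw [hr'] at hr
  -- the square root
  have h3 : 6 * L * √((x : ℝ) + h) ≤ h / L ^ d := by
    have e1 : √((x : ℝ) + h) ≤ 4 * s * X := by
      rw [show (4 : ℝ) * s * X = √((4 * s * X) ^ 2) from (Real.sqrt_sq (by positivity)).symm]
      apply Real.sqrt_le_sqrt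
      calc (x : ℝ) + h ≤ 16 * (s : ℝ) ^ 2 * (X : ℝ) ^ 2 := hx2
        _ = (4 * s * X) ^ 2 := by ring
    rw [le_div_iff₀ (by positivity)]
    refine le_trans ?_ hh1
    have e2 : 24 * (s : ℝ) * (L ^ d * L) ≤ √(X : ℝ) := by
      refine le_trans ?_ hr
      have f1 : (1 : ℝ) ≤ (6 * (a : ℝ) + 1) * L ^ C := one_le_mul_of_one_le_of_one_le (by linarith) hLC
      have f2 : 0 ≤ 24 * (s : ℝ) * (L ^ d * L) := by positivity
      calc 24 * (s : ℝ) * (L ^ d * L) = 24 * (s : ℝ) * (L ^ d * L) * 1 := by ring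
        _ ≤ 24 * (s : ℝ) * (L ^ d * L) * ((6 * (a : ℝ) + 1) * L ^ C) := by gcongr
        _ ≤ 24 * (6 * (a : ℝ) + 1) * (s : ℝ) * (L ^ d * L * L ^ C) * 2 := by
            have : 0 ≤ 24 * (6 * (a : ℝ) + 1) * (s : ℝ) * (L ^ d * L * L ^ C) := by positivity
            linarith
    calc 6 * L * √((x : ℝ) + h) * L ^ d ≤ 6 * L * (4 * s * X) * L ^ d := by gcongr
      _ = X * (24 * (s : ℝ) * (L ^ d * L)) := by ring
      _ ≤ X * √(X : ℝ) := by gcongr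
  have h4 : 3 * L * (h : ℝ) ^ 2 / x ≤ h / L ^ d := by
    have hx0 : (0 : ℝ) < x := by
      have : (0 : ℝ) < (X : ℝ) ^ 2 := by positivity
      linarith
    rw [div_le_div_iff₀ hx0 (by positivity)]
    have hh0 : (0 : ℝ) ≤ h := Nat.cast_nonneg _
    have e1 : 3 * L * h * L ^ d ≤ x := by
      have e2 : 3 * L * h * L ^ d ≤ (X : ℝ) ^ 2 / 4 := by
        calc 3 * L * h * L ^ d ≤ 3 * L * (2 * (6 * a + 1) * (X * √(X : ℝ)) * L ^ C) * L ^ d := by gcongr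
          _ = (X * √(X : ℝ)) * (24 * (6 * (a : ℝ) + 1) * 1 * (L ^ d * L * L ^ C)) / 4 := by ring
          _ ≤ (X * √(X : ℝ)) * (24 * (6 * (a : ℝ) + 1) * (s : ℝ) * (L ^ d * L * L ^ C)) / 4 := by gcongr
          _ ≤ (X * √(X : ℝ)) * √(X : ℝ) / 4 := by
              have : 0 ≤ 24 * (6 * (a : ℝ) + 1) * (s : ℝ) * (L ^ d * L * L ^ C) := by positivity
              have e3 : 24 * (6 * (a : ℝ) + 1) * (s : ℝ) * (L ^ d * L * L ^ C) ≤ √(X : ℝ) := by linarith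
              gcongr
          _ = (X : ℝ) ^ 2 / 4 := by rw [mul_assoc, hqq]; ring
      linarith
    calc 3 * L * (h : ℝ) ^ 2 * L ^ d = h * (3 * L * h * L ^ d) := by ring
      _ ≤ h * x := by gcongr
  have h5 : 3 * (h : ℝ) / L ^ d = h / L ^ d + h / L ^ d + h / L ^ d := by ring
  rw [h5]
  linarith

/-- the final numbers -/
lemma fin_num (X Y L J S B : ℝ) (A : ℕ) (hX : 0 < X) (hY : 0 < Y) (hYX : Y ≤ X) (hL : 100 ≤ L) (hJ0 : 0 ≤ J) (hJ : J ≤ X / Y + 1)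
    (hS : S ≤ X * Y * Y ^ 2 / L ^ ((2 * A + 1) + 2)) (hB0 : 0 ≤ B) (hB : B ≤ X / L ^ (A + 1)) :
    2 * J ^ 2 * S + 2 * (X * Y) * B ^ 2 ≤ X * Y * X ^ 2 / L ^ A := by
  have hL0 : 0 < L := by linarith
  have h1 : J ≤ 2 * X / Y := by
    have : 1 ≤ X / Y := by rw [le_div_iff₀ hY]; linarith
    have e : 2 * X / Y = X / Y + X / Y := by ring
    linarith
  have h2 : 2 * J ^ 2 * S ≤ 8 / L ^ 2 * (X * Y * X ^ 2 / L ^ A) := by
    calc 2 * J ^ 2 * S ≤ 2 * J ^ 2 * (X * Y * Y ^ 2 / L ^ ((2 * A + 1) + 2)) := by gcongr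
      _ ≤ 2 * (2 * X / Y) ^ 2 * (X * Y * Y ^ 2 / L ^ ((2 * A + 1) + 2)) := by gcongr
      _ = 8 * (X * Y * X ^ 2) / L ^ ((2 * A + 1) + 2) := by
          field_simp
          ring
      _ ≤ 8 * (X * Y * X ^ 2) / L ^ (A + 2) := by
          apply div_le_div_of_nonneg_left (by positivity) (by positivity)
          exact pow_le_pow_right₀ (by linarith) (by omega)
      _ = _ := by
          rw [pow_add]
          field_simp
  have h3 : 2 * (X * Y) * B ^ 2 ≤ 2 / L ^ 2 * (X * Y * X ^ 2 / L ^ A) := by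
    calc 2 * (X * Y) * B ^ 2 ≤ 2 * (X * Y) * (X / L ^ (A + 1)) ^ 2 := by gcongr
      _ = 2 * (X * Y * X ^ 2) / L ^ (2 * (A + 1)) := by
          rw [div_pow, ← pow_mul, mul_comm (A + 1) 2]
          ring
      _ ≤ 2 * (X * Y * X ^ 2) / L ^ (A + 2) := by
          apply div_le_div_of_nonneg_left (by positivity) (by positivity)
          exact pow_le_pow_right₀ (by linarith) (by omega)
      _ = _ := by
          rw [pow_add]
          field_simp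
  have h4 : 0 ≤ X * Y * X ^ 2 / L ^ A := by positivity
  have h5 : 8 / L ^ 2 + 2 / L ^ 2 ≤ 1 := by
    rw [← add_div, div_le_one (by positivity)]
    nlinarith
  calc 2 * J ^ 2 * S + 2 * (X * Y) * B ^ 2 ≤ 8 / L ^ 2 * (X * Y * X ^ 2 / L ^ A) + 2 / L ^ 2 * (X * Y * X ^ 2 / L ^ A) := add_le_add h2 h3
    _ = (8 / L ^ 2 + 2 / L ^ 2) * (X * Y * X ^ 2 / L ^ A) := by ring
    _ ≤ 1 * (X * Y * X ^ 2 / L ^ A) := mul_le_mul_of_nonneg_right h5 h4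
    _ = _ := one_mul _

end Pool.Agent.H79.U
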