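import Pool.Agent.H79.U.GQ

/-! The mean square over the shifts: the base scale. -/

set_option autoImplicit false

namespace Pool.Agent.H79.U

open Finset
open Pool.Agent.helper24_UT
open Pool.Agent.H807R2.Dav (ee norm_ee ee_add)
open Pool.Agent.H373R2.T7 (lamI lamzI lamz Vz pz mem_pz ev_log' ev_L' Vz_pos Vz_inv_small lamI_nonneg lamzI_nonneg lamP lamP_nonneg lamP_le pp_sum)

theorem base_ms (a : ℕ) (b : ℤ) (ha : 1 ≤ a) (A : ℕ) : ∃ C₀ E₀ : ℕ, ∀ E₁ : ℕ, ∃ X₀ : ℕ, ∀ X : ℕ, X₀ ≤ X → ∀ z : ℕ,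
    (Real.log X) ^ E₀ ≤ z → (z : ℝ) ≤ (Real.log X) ^ E₁ → ∀ κ : ℤ, -(X : ℤ) ^ 2 ≤ 4 * κ → κ ≤ 2 * (X : ℤ) ^ 2 →
    ∀ w : ℕ → ℝ, (∀ n, |w n| ≤ 1) →
    ∑ k ∈ Ioc κ (κ + (X * Yc C₀ X : ℕ)), (∑ n ∈ Ioc X (2 * X), w n * E1 z (FF a b n + k)) ^ 2 ≤
      (X : ℝ) * Yc C₀ X * (X : ℝ) ^ 2 / (Real.log X) ^ A := by
  classical
  set d : ℕ := 3 * A + 6 with hd
  obtain ⟨Cc, E₀, hbl⟩ := blocksG d 0 1 (A + 2)
  -- the square root of `2 a`
  set s : ℕ := Nat.sqrt (2 * a) with hs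
  have hs1 : s ^ 2 ≤ 2 * a := Nat.sqrt_le' (2 * a)
  have hs2' : 2 * a < (s + 1) ^ 2 := Nat.lt_succ_sqrt' (2 * a)
  have hs0 : 1 ≤ s := by
    by_contra h
    have : s = 0 := by omega
    rw [this] at hs2'
    omega
  have hs2 : 2 * a + 1 ≤ 4 * s ^ 2 := by nlinarith
  have hs3 : s + 1 ≤ 2 * a := by
    by_contra h
    have h1 : 2 * a ≤ s := by omega
    have h2 : 2 * a * (2 * a) ≤ s ^ 2 := by nlinarith
    nlinarith
  refine ⟨Cc, 2 * E₀, fun E₁ => ?_⟩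
  obtain ⟨X₁, h1⟩ := hbl E₁
  obtain ⟨X₂, h2⟩ := Vz_inv_small E₁
  obtain ⟨X₃, h3⟩ := ev_L' (max (1000 + 20 * (s : ℝ) ^ 2 + (6 * (a : ℝ) + 1)) (3024 * (6 * (a : ℝ) + 1) ^ 4))
  obtain ⟨X₄, h4⟩ := ev_log' (d + 1 + Cc) (64 * (24 * (6 * (a : ℝ) + 1) * (s : ℝ) * 2))
  refine ⟨max (max X₁ X₂) (max (max X₃ X₄) (8 * b.natAbs + 16)), ?_⟩
  intro X hX z hz1 hz2 κ hκ1 hκ2 w hw
  have c1 : X₁ ≤ X := ((le_max_left _ _).trans (le_max_left _ _)).trans hX
  have c2 : X₂ ≤ X := ((le_max_right _ _).trans (le_max_left _ _)).trans hX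
  have c3 : X₃ ≤ X := ((le_max_left _ _).trans ((le_max_left _ _).trans (le_max_right _ _))).trans hX
  have c4 : X₄ ≤ X := ((le_max_right _ _).trans ((le_max_left _ _).trans (le_max_right _ _))).trans hX
  have c5 : 8 * b.natAbs + 16 ≤ X := ((le_max_right _ _).trans (le_max_right _ _)).trans hX
  have hL3 := h3 X c3
  have hLa := (le_max_left _ _).trans hL3
  have hLb := (le_max_right _ _).trans hL3
  have hroot := h4 X c4
  set L : ℝ := Real.log X with hLdef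
  have haR : (1 : ℝ) ≤ a := by exact_mod_cast ha
  have hsR : (1 : ℝ) ≤ s := by exact_mod_cast hs0
  have hss : (s : ℝ) ≤ (s : ℝ) ^ 2 := by nlinarith
  have hL : 1000 ≤ L := by nlinarith
  have hL0 : 0 < L := by linarith
  have hLs : (s : ℝ) ≤ L := by nlinarith
  have hLa2 : 6 * (a : ℝ) + 1 ≤ L := by nlinarith
  have hX16 : 16 ≤ X := by omega
  have hXR : (16 : ℝ) ≤ X := by exact_mod_cast hX16
  have hX0 : (0 : ℝ) < X := by linarith
  have hb8 : 8 * |b| ≤ X := by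
    have e1 : |b| = (b.natAbs : ℤ) := Int.abs_eq_natAbs b
    rw [e1]
    omega
  have hb1 : |b| ≤ X := by
    have := abs_nonneg b
    omega
  -- the block length
  set Y : ℕ := Yc Cc X with hY
  have hq0 : 0 < √(X : ℝ) := Real.sqrt_pos.2 hX0
  have hqq : √(X : ℝ) * √(X : ℝ) = X := Real.mul_self_sqrt hX0.le
  have hq1 : 1 ≤ √(X : ℝ) := by
    apply Real.le_sqrt_of_sq_le
    linarith
  have hLC : (1 : ℝ) ≤ L ^ Cc := one_le_pow₀ (by linarith)
  have hYlow : √(X : ℝ) * L ^ Cc ≤ Y := Nat.le_ceil _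
  have hYup : (Y : ℝ) ≤ 2 * (√(X : ℝ) * L ^ Cc) := by
    have e1 : (Y : ℝ) < √(X : ℝ) * L ^ Cc + 1 := Nat.ceil_lt_add_one (by positivity)
    have e2 : 1 ≤ √(X : ℝ) * L ^ Cc := one_le_mul_of_one_le_of_one_le hq1 hLC
    linarith
  have hYq : √(X : ℝ) ≤ Y := le_trans (le_mul_of_one_le_right hq0.le hLC) hYlow
  have hY1R : (1 : ℝ) ≤ Y := hq1.trans hYq
  have hY1 : 1 ≤ Y := by exact_mod_cast hY1R
  have hY0 : (0 : ℝ) < Y := by linarith
  -- the root is large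
  have hP1 : (1 : ℝ) ≤ L ^ (d + 1) := one_le_pow₀ (by linarith)
  have hroot2 : 64 * (24 * (6 * (a : ℝ) + 1) * (s : ℝ) * 2) * L ^ Cc ≤ √(X : ℝ) := by
    refine le_trans ?_ hroot
    rw [pow_add L (d + 1) Cc]
    have e1 : (0 : ℝ) ≤ 64 * (24 * (6 * (a : ℝ) + 1) * (s : ℝ) * 2) * L ^ Cc := by positivity
    calc 64 * (24 * (6 * (a : ℝ) + 1) * (s : ℝ) * 2) * L ^ Cc = 64 * (24 * (6 * (a : ℝ) + 1) * (s : ℝ) * 2) * L ^ Cc * 1 := by ring
      _ ≤ 64 * (24 * (6 * (a : ℝ) + 1) * (s : ℝ) * 2) * L ^ Cc * L ^ (d + 1) := by gcongr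
      _ = _ := by ring
  have hYXb : 64 * (6 * (a : ℝ) + 1) * Y ≤ X := by
    calc 64 * (6 * (a : ℝ) + 1) * Y ≤ 64 * (6 * (a : ℝ) + 1) * (2 * (√(X : ℝ) * L ^ Cc)) := by gcongr
      _ = √(X : ℝ) * (64 * (1 * (6 * (a : ℝ) + 1) * 1 * 2) * L ^ Cc) := by ring
      _ ≤ √(X : ℝ) * (64 * (24 * (6 * (a : ℝ) + 1) * (s : ℝ) * 2) * L ^ Cc) := by
          gcongr
          norm_num
      _ ≤ √(X : ℝ) * √(X : ℝ) := by gcongr
      _ = X := hqq
  have hYXR : (Y : ℝ) ≤ X := by nlinarith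
  have hYX : Y ≤ X := by exact_mod_cast hYXR
  -- the length of the windows
  set h : ℕ := (6 * a + 1) * X * Y with hh
  have hhR : (h : ℝ) = (6 * a + 1) * X * Y := by rw [hh]; push_cast; ring
  have hh0 : (0 : ℝ) < h := by rw [hhR]; positivity
  have hh1 : (X : ℝ) * √(X : ℝ) ≤ h := by
    rw [hhR]
    calc (X : ℝ) * √(X : ℝ) ≤ X * Y := by gcongr
      _ = 1 * X * Y := by ring
      _ ≤ (6 * a + 1) * X * Y := by
          gcongr
          linarith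
  have hh2 : (h : ℝ) ≤ 2 * (6 * a + 1) * (X * √(X : ℝ)) * L ^ Cc := by
    rw [hhR]
    calc (6 * (a : ℝ) + 1) * X * Y ≤ (6 * (a : ℝ) + 1) * X * (2 * (√(X : ℝ) * L ^ Cc)) := by gcongr
      _ = _ := by ring
  -- the scale `s X`
  set X' : ℕ := s * X with hX'
  have hXX' : X ≤ X' := by
    rw [hX']
    exact Nat.le_mul_of_pos_left X hs0
  have hX'R : (X' : ℝ) = s * X := by rw [hX']; push_cast; ring
  have hL'1 : L ≤ Real.log (X' : ℝ) := Real.log_le_log hX0 (by exact_mod_cast hXX')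
  have hlogs : Real.log (s : ℝ) ≤ s := by
    have := Real.log_le_sub_one_of_pos (show (0 : ℝ) < s by linarith)
    linarith
  have hL'2 : Real.log (X' : ℝ) ≤ 2 * L := by
    rw [hX'R, Real.log_mul (by linarith) (by linarith)]
    linarith
  set L' : ℝ := Real.log (X' : ℝ) with hL'
  have hL'0 : 0 < L' := by linarith
  have hpow : ∀ n : ℕ, L' ^ n ≤ L ^ (2 * n) := by
    intro n
    rw [pow_mul]
    apply pow_le_pow_left₀ hL'0.le
    nlinarith
  have hzz1 : L' ^ E₀ ≤ z := (hpow E₀).trans hz1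
  have hzz2 : (z : ℝ) ≤ L' ^ E₁ := hz2.trans (pow_le_pow_left₀ hL0.le hL'1 _)
  have hz0 : 1 ≤ z := by
    have e1 : (1 : ℝ) ≤ L ^ (2 * E₀) := one_le_pow₀ (by linarith)
    exact_mod_cast e1.trans hz1
  have hV := h2 X c2 z hz0 hz2
  rw [← hLdef] at hV
  have q1 : 32 * h ≤ X' ^ 2 := by
    have e1 : (32 : ℝ) * h ≤ (X' : ℝ) ^ 2 := by
      rw [hX'R, hhR]
      have e2 : (1 : ℝ) ≤ (s : ℝ) ^ 2 := by nlinarith
      calc 32 * ((6 * (a : ℝ) + 1) * X * Y) ≤ X * (64 * (6 * (a : ℝ) + 1) * Y) := by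
            have : 0 ≤ (6 * (a : ℝ) + 1) * X * Y := by positivity
            linarith
        _ ≤ X * X := by gcongr
        _ = 1 * (X : ℝ) ^ 2 := by ring
        _ ≤ (s : ℝ) ^ 2 * (X : ℝ) ^ 2 := by gcongr
        _ = _ := by ring
    exact_mod_cast e1
  have q2 : (X' : ℝ) ^ 3 * L' ^ Cc ≤ (h : ℝ) ^ 2 := by
    have e1 : (s : ℝ) ^ 3 ≤ (6 * (a : ℝ) + 1) ^ 2 := by
      have e2 : (s : ℝ) ^ 2 ≤ 2 * a := by exact_mod_cast hs1
      have e3 : (s : ℝ) + 1 ≤ 2 * a := by exact_mod_cast hs3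
      calc (s : ℝ) ^ 3 = (s : ℝ) ^ 2 * s := by ring
        _ ≤ (2 * (a : ℝ)) * (2 * (a : ℝ)) := by
            apply mul_le_mul e2 (by linarith) (by linarith) (by linarith)
        _ ≤ (6 * (a : ℝ) + 1) ^ 2 := by nlinarith
    have e2 : (X : ℝ) * L ^ (2 * Cc) ≤ (Y : ℝ) ^ 2 := by
      calc (X : ℝ) * L ^ (2 * Cc) = (√(X : ℝ) * L ^ Cc) ^ 2 := by
            rw [mul_pow, Real.sq_sqrt hX0.le, ← pow_mul, mul_comm Cc 2]
        _ ≤ (Y : ℝ) ^ 2 := pow_le_pow_left₀ (by positivity) hYlow 2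
    rw [hX'R, hhR]
    calc ((s : ℝ) * X) ^ 3 * L' ^ Cc ≤ ((s : ℝ) * X) ^ 3 * L ^ (2 * Cc) := by gcongr; exact hpow Cc
      _ = (s : ℝ) ^ 3 * (X : ℝ) ^ 2 * (X * L ^ (2 * Cc)) := by ring
      _ ≤ (6 * (a : ℝ) + 1) ^ 2 * (X : ℝ) ^ 2 * (Y : ℝ) ^ 2 := by gcongr
      _ = _ := by ring
  have q3 : X' * Y ≤ h := by
    rw [hX', hh]
    have : s ≤ 6 * a + 1 := by omega
    gcongr
  have q4 : (h : ℝ) ≤ X' * Y * L' ^ 1 := by
    rw [hX'R, hhR, pow_one]
    calc (6 * (a : ℝ) + 1) * X * Y ≤ L' * X * Y := by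
          gcongr
          linarith
      _ = 1 * X * Y * L' := by ring
      _ ≤ s * X * Y * L' := by gcongr
  -- the centres
  set c : ℕ → ℝ := fun i => ((FF a b (X + i * Y) + κ : ℤ) : ℝ) with hc
  have hcc : ∀ i j : ℕ, j ≤ i → (X' : ℝ) * Y * ((i : ℝ) - j) ≤ c i - c j := fun i j hij => centers a s X Y b κ hs3 hb1 i j hij
  set J : ℕ := X / Y + 1 with hJ
  have hbad := h1 X' (c1.trans hXX') z hzz1 hzz2 h Y q1 q2 hY1 q3 q4 c hcc J
  set Bd := (range J).filter (fun i => ¬ GC z X' h d 0 (c i)) with hBd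
  set G := (range J).filter (fun i => GC z X' h d 0 (c i)) with hG
  have hGsub : G ⊆ range J := filter_subset _ _
  have hBG : range J \ G = Bd := by
    rw [hG, hBd]
    exact (filter_not _ _).symm
  have hT : ∀ i ∈ range J, X ≤ X + i * Y ∧ X + i * Y ≤ 2 * X := by
    intro i hi
    rw [mem_range, hJ] at hi
    have e1 : i * Y ≤ X / Y * Y := Nat.mul_le_mul_right _ (by omega)
    have e2 := Nat.div_mul_le_self X Y
    omega
  -- the starting points of the windows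
  have hstart : ∀ i ∈ range J, ∃ x : ℕ, (x : ℤ) = FF a b (X + i * Y) + κ ∧ X' ^ 2 ≤ 4 * x ∧ x ≤ 12 * X' ^ 2 := by
    intro i hi
    obtain ⟨t1, t2⟩ := hT i hi
    obtain ⟨u1, u2⟩ := hgt a s X (X + i * Y) b κ hs1 hs2 hb8 ha t1 t2 hκ1 hκ2
    have u3 : (0 : ℤ) ≤ (((s * X) ^ 2 : ℕ) : ℤ) := Nat.cast_nonneg _
    refine ⟨(FF a b (X + i * Y) + κ).toNat, ?_, ?_, ?_⟩
    · omega
    · rw [hX']
      omega
    · rw [hX']
      omega
  have hX2 : (X : ℝ) ^ 2 ≤ (X' : ℝ) ^ 2 := pow_le_pow_left₀ hX0.le (by exact_mod_cast hXX') 2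
  have hlogm : ∀ x : ℕ, X' ^ 2 ≤ 4 * x → ∀ m : ℤ, (x : ℤ) < m → L ≤ Real.log m := by
    intro x hx m hm
    have e1 : (X' : ℝ) ^ 2 ≤ 4 * x := by exact_mod_cast hx
    have e2 : (x : ℝ) < m := by exact_mod_cast hm
    apply Real.log_le_log hX0
    nlinarith
  have hEall : ∀ i ∈ range J, ∀ m : ℤ, FF a b (X + i * Y) + κ < m → |E1 z m| ≤ 1 := by
    intro i hi m hm
    obtain ⟨x, x1, x2, x3⟩ := hstart i hi
    rw [← x1] at hm
    exact E1_abs z m L hL0 (hlogm x x2 m hm) hV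
  -- one block
  set w' : ℕ → ℝ := fun n => if X < n ∧ n ≤ 2 * X then w n else 0 with hw'
  have hw'1 : ∀ n, |w' n| ≤ 1 := by
    intro n
    rw [hw']
    dsimp only
    split_ifs
    · exact hw n
    · rw [abs_zero]; norm_num
  set K : Finset ℤ := Ioc κ (κ + (X * Y : ℕ)) with hK
  have hKc : (K.card : ℝ) = X * Y := by
    rw [hK, Int.card_Ioc]
    have : (κ + ((X * Y : ℕ) : ℤ) - κ).toNat = X * Y := by omega
    rw [this]
    push_cast
    ring
  set cf : ℕ → ℤ → ℝ := fun i k => ∑ m ∈ range Y, w' (X + i * Y + m) * E1 z (FF a b (X + i * Y + m) + k) with hcf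
  have hsumw : ∀ k : ℤ, ∑ n ∈ Ioc X (2 * X), w n * E1 z (FF a b n + k) = ∑ i ∈ range J, cf i k := by
    intro k
    rw [sum_w (fun n => w n * E1 z (FF a b n + k)) X Y hY1]
    refine sum_congr rfl fun i _ => ?_
    rw [hcf]
    dsimp only
    refine sum_congr rfl fun m _ => ?_
    rw [hw']
    dsimp only
    split_ifs
    · rfl
    · rw [zero_mul]
  have hgood : ∀ i ∈ G, ∑ k ∈ K, cf i k ^ 2 ≤ (X : ℝ) * Y * (Y : ℝ) ^ 2 / L ^ ((2 * A + 1) + 2) := by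
    intro i hi
    have hiJ := hGsub hi
    have hGC := (mem_filter.1 hi).2
    obtain ⟨x, x1, x2, x3⟩ := hstart i hiJ
    obtain ⟨t1, t2⟩ := hT i hiJ
    have hxc : (x : ℝ) = c i := by
      rw [hc]
      dsimp only
      rw [← x1]
      push_cast
      rfl
    have x2R : (X' : ℝ) ^ 2 ≤ 4 * x := by exact_mod_cast x2
    have x3R : (x : ℝ) ≤ 12 * (X' : ℝ) ^ 2 := by exact_mod_cast x3
    have q1R : 32 * (h : ℝ) ≤ (X' : ℝ) ^ 2 := by exact_mod_cast q1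
    have hx3 : 3 ≤ x := by
      have e1 : (16 : ℝ) ^ 2 ≤ (X : ℝ) ^ 2 := pow_le_pow_left₀ (by norm_num) hXR 2
      have e2 : (3 : ℝ) ≤ x := by linarith
      exact_mod_cast e2
    have hsup : ∀ α : ℝ, ‖sw (Ed z) h (x : ℤ) α‖ ≤ h / L ^ d := by
      intro α
      refine (hGC x h x2 x3 (by omega) ?_ α).trans ?_
      · rw [hxc, sub_self, abs_zero]
        positivity
      · apply div_le_div_of_nonneg_left hh0.le (by positivity)
        exact pow_le_pow_left₀ hL0.le hL'1 _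
    have hx16 : (x : ℝ) + h ≤ 16 * (s : ℝ) ^ 2 * (X : ℝ) ^ 2 := by
      have e1 : (X' : ℝ) ^ 2 = (s : ℝ) ^ 2 * (X : ℝ) ^ 2 := by rw [hX'R]; ring
      have e2 : 0 ≤ (s : ℝ) ^ 2 * (X : ℝ) ^ 2 := by positivity
      linarith
    have hlog3 : Real.log ((x : ℝ) + h) ≤ 3 * L := by
      have e0 : (0 : ℝ) < x + h := by
        have : (0 : ℝ) ≤ x := Nat.cast_nonneg _
        linarith
      refine (Real.log_le_log e0 hx16).trans ?_
      rw [Real.log_mul (by positivity) (by positivity), Real.log_pow]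
      have e1 := Real.log_le_sub_one_of_pos (show (0 : ℝ) < 16 * (s : ℝ) ^ 2 by positivity)
      push_cast
      rw [← hLdef]
      linarith
    have hE1 : ∀ α : ℝ, ‖sw (E1 z) h (x : ℤ) α‖ ≤ 3 * h / L ^ d := by
      intro α
      apply good_sup X h s d Cc L a (by linarith) (by linarith) hs0 hh1 hh2 _ z x hx3 (by linarith) hx16 hlog3 hV hsup α
      have e1 : 64 * (24 * (6 * (a : ℝ) + 1) * (s : ℝ) * 2) * L ^ (d + 1 + Cc) ≤ √(X : ℝ) := hroot
      have e2 : 0 ≤ 24 * (6 * (a : ℝ) + 1) * (s : ℝ) * L ^ (d + 1 + Cc) * 2 := by positivity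
      have e3 : 64 * (24 * (6 * (a : ℝ) + 1) * (s : ℝ) * 2) * L ^ (d + 1 + Cc) = 64 * (24 * (6 * (a : ℝ) + 1) * (s : ℝ) * L ^ (d + 1 + Cc) * 2) := by ring
      linarith
    have hob := one_block a b ha X Y z (X + i * Y) κ (3 * h / L ^ d) (by omega) hb1 hY1 hYX t1 t2 (fun m => w' (X + i * Y + m))
      (fun m => hw'1 _) (fun m hm _ => hEall i hiJ m hm) (fun α => by rw [← x1]; exact hE1 α)
    have hlogY0 : 0 ≤ Real.log (Y : ℝ) := Real.log_natCast_nonneg _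
    refine block_num X Y L h (3 * h / L ^ d) _ (2 * A + 1) d a hX0 hY0 (by linarith) ?_ hhR (by positivity) le_rfl (by omega)
      (by push_cast; exact hLb) (Real.log_le_log hY0 hYXR) hlogY0 hob
    rw [← hqq, sq]
    exact mul_le_mul hYq hYq hq0.le hY0.le
  have hbadB : ∀ k ∈ K, |∑ i ∈ range J \ G, cf i k| ≤ X / L ^ (A + 1) := by
    intro k hk
    rw [hBG]
    refine (abs_sum_le_sum_abs _ _).trans ?_
    have e1 : ∀ i ∈ Bd, |cf i k| ≤ Y := by
      intro i hi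
      have hiJ : i ∈ range J := (mem_filter.1 hi).1
      obtain ⟨t1, t2⟩ := hT i hiJ
      rw [hcf]
      dsimp only
      refine (abs_sum_le_sum_abs _ _).trans ?_
      have e2 : ∀ m ∈ range Y, |w' (X + i * Y + m) * E1 z (FF a b (X + i * Y + m) + k)| ≤ 1 := by
        intro m hm
        rw [abs_mul]
        have e3 : |E1 z (FF a b (X + i * Y + m) + k)| ≤ 1 := by
          apply hEall i hiJ
          rw [hK, mem_Ioc] at hk
          rw [FF_add a b (X + i * Y) m]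
          have e4 := qa_bound a (2 * a * ((X + i * Y : ℕ) : ℤ) + b) Y m (by exact_mod_cast ha) (by
            have e5 := abs_le.1 hb1
            have e6 : (X : ℤ) ≤ ((X + i * Y : ℕ) : ℤ) := by exact_mod_cast t1
            have e7 : (1 : ℤ) ≤ a := by exact_mod_cast ha
            have e8 : (16 : ℤ) ≤ X := by exact_mod_cast hX16
            nlinarith) (mem_range.1 hm)
          linarith [hk.1]
        calc |w' (X + i * Y + m)| * |E1 z (FF a b (X + i * Y + m) + k)| ≤ 1 * 1 :=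
              mul_le_mul (hw'1 _) e3 (abs_nonneg _) (by norm_num)
          _ = 1 := by norm_num
      refine (sum_le_sum e2).trans ?_
      rw [sum_const, card_range, nsmul_eq_mul, mul_one]
    refine (sum_le_sum e1).trans ?_
    rw [sum_const, nsmul_eq_mul]
    refine hbad.trans ?_
    have hX'le : (X' : ℝ) ≤ L * X := by
      rw [hX'R]
      gcongr
    calc (X' : ℝ) / L' ^ (A + 2) ≤ L * X / L ^ (A + 2) :=
          div_le_div₀ (by positivity) hX'le (by positivity) (pow_le_pow_left₀ hL0.le hL'1 _)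
      _ = X / L ^ (A + 1) := by
          rw [pow_succ L (A + 1)]
          field_simp
  simp_rw [hsumw]
  have hcomb := combine K J G hGsub cf ((X : ℝ) * Y * (Y : ℝ) ^ 2 / L ^ ((2 * A + 1) + 2)) (X / L ^ (A + 1)) (by positivity) hgood hbadB
  refine hcomb.trans ?_
  rw [hKc]
  refine fin_num X Y L J _ _ A hX0 hY0 hYXR (by linarith) (Nat.cast_nonneg _) ?_ le_rfl (by positivity) le_rfl
  rw [hJ]
  push_cast
  have := Nat.cast_div_le (α := ℝ) (m := X) (n := Y)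
  linarith

end Pool.Agent.H79.U
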