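import Pool.Agent.H79.U.GN

/-! Tuples, by induction. -/

set_option autoImplicit false

namespace Pool.Agent.H79.U

open Finset

lemma sum_cons (r : ℕ) (I : Finset ℤ) (f : (Fin (r + 1) → ℤ) → ℝ) :
    ∑ k ∈ Fintype.piFinset (fun _ : Fin (r + 1) => I), f k = ∑ k0 ∈ I, ∑ k' ∈ Fintype.piFinset (fun _ : Fin r => I), f (Fin.cons k0 k') := by
  rw [← sum_product']
  symm
  apply sum_nbij' (fun p : ℤ × (Fin r → ℤ) => (Fin.cons p.1 p.2 : Fin (r + 1) → ℤ)) (fun k => (k 0, Fin.tail k))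
  · intro p hp
    rw [mem_product, Fintype.mem_piFinset] at hp
    rw [Fintype.mem_piFinset]
    intro j
    refine Fin.cases ?_ (fun i => ?_) j
    · rw [Fin.cons_zero]; exact hp.1
    · rw [Fin.cons_succ]; exact hp.2 i
  · intro k hk
    rw [Fintype.mem_piFinset] at hk
    rw [mem_product, Fintype.mem_piFinset]
    exact ⟨hk 0, fun j => hk j.succ⟩
  · intro p _
    rw [Fin.cons_zero, Fin.tail_cons]
  · intro k _
    exact Fin.cons_self_tail k
  · intro p _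
    rfl

theorem tup (I : Finset ℤ) (N : Finset ℕ) (p m : ℤ → ℝ) (S : ℝ) (hS0 : 0 ≤ S) (hp : ∀ x, 0 ≤ p x ∧ p x ≤ 1) :
    ∀ (r : ℕ) (F : Fin r → ℕ → ℤ), (∀ j, ∀ n ∈ N, ∀ k ∈ I, 0 ≤ m (F j n + k) ∧ m (F j n + k) ≤ 1) →
    (∀ j, ∀ w : ℕ → ℝ, (∀ n, |w n| ≤ 1) → ∑ k ∈ I, (∑ n ∈ N, w n * (p (F j n + k) - m (F j n + k))) ^ 2 ≤ S) →
    ∀ w : ℕ → ℝ, (∀ n, |w n| ≤ 1) →
    (I.card : ℝ) * ∑ k ∈ Fintype.piFinset (fun _ : Fin r => I), (∑ n ∈ N, w n * (∏ j, p (F j n + k j) - ∏ j, m (F j n + k j))) ^ 2 ≤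
      4 ^ r * (I.card : ℝ) ^ r * S := by
  classical
  intro r
  induction r with
  | zero =>
    intro F _ _ w _
    simp
    exact hS0
  | succ r ih =>
    intro F hm hM w hw
    rw [sum_cons]
    set Q := Fintype.piFinset (fun _ : Fin r => I) with hQ
    have hQc : (Q.card : ℝ) = (I.card : ℝ) ^ r := by
      rw [hQ, Fintype.card_piFinset, prod_const, card_univ, Fintype.card_fin]
      push_cast
      rfl
    have hI0 : (0 : ℝ) ≤ I.card := Nat.cast_nonneg _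
    -- the first term
    have hA : ∀ k0 ∈ I, (I.card : ℝ) * ∑ k' ∈ Q, (∑ n ∈ N, (w n * p (F 0 n + k0)) * (∏ j : Fin r, p (F j.succ n + k' j) - ∏ j : Fin r, m (F j.succ n + k' j))) ^ 2 ≤
        4 ^ r * (I.card : ℝ) ^ r * S := by
      intro k0 _
      apply ih (fun j => F j.succ) (fun j => hm j.succ) (fun j => hM j.succ)
      intro n
      rw [abs_mul]
      calc |w n| * |p (F 0 n + k0)| ≤ 1 * 1 := by
            apply mul_le_mul (hw n) _ (abs_nonneg _) (by norm_num)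
            rw [abs_of_nonneg (hp _).1]
            exact (hp _).2
        _ = 1 := by norm_num
    -- the second term
    have hB : ∀ k' ∈ Q, ∑ k0 ∈ I, (∑ n ∈ N, (w n * ∏ j : Fin r, m (F j.succ n + k' j)) * (p (F 0 n + k0) - m (F 0 n + k0))) ^ 2 ≤ S := by
      intro k' hk'
      rw [hQ, Fintype.mem_piFinset] at hk'
      have h1 := hM 0 (fun n => if n ∈ N then w n * ∏ j : Fin r, m (F j.succ n + k' j) else 0) (by
        intro n
        split_ifs with hn
        · rw [abs_mul]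
          have h2 : |∏ j : Fin r, m (F j.succ n + k' j)| ≤ 1 := by
            rw [abs_prod]
            apply prod_le_one
            · intro j _; exact abs_nonneg _
            · intro j _
              rw [abs_of_nonneg (hm j.succ n hn (k' j) (hk' j)).1]
              exact (hm j.succ n hn (k' j) (hk' j)).2
          calc |w n| * |∏ j : Fin r, m (F j.succ n + k' j)| ≤ 1 * 1 := mul_le_mul (hw n) h2 (abs_nonneg _) (by norm_num)
            _ = 1 := by norm_num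
        · rw [abs_zero]; norm_num)
      refine le_trans (le_of_eq ?_) h1
      refine sum_congr rfl fun k0 _ => ?_
      congr 1
      refine sum_congr rfl fun n hn => ?_
      rw [if_pos hn]
    have hdec : ∀ k0 ∈ I, ∀ k' ∈ Q, (∑ n ∈ N, w n * (∏ j, p (F j n + (Fin.cons k0 k' : Fin (r + 1) → ℤ) j) - ∏ j, m (F j n + (Fin.cons k0 k' : Fin (r + 1) → ℤ) j))) ^ 2 ≤
        2 * (∑ n ∈ N, (w n * p (F 0 n + k0)) * (∏ j : Fin r, p (F j.succ n + k' j) - ∏ j : Fin r, m (F j.succ n + k' j))) ^ 2 +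
        2 * (∑ n ∈ N, (w n * ∏ j : Fin r, m (F j.succ n + k' j)) * (p (F 0 n + k0) - m (F 0 n + k0))) ^ 2 := by
      intro k0 _ k' _
      have e1 : ∑ n ∈ N, w n * (∏ j, p (F j n + (Fin.cons k0 k' : Fin (r + 1) → ℤ) j) - ∏ j, m (F j n + (Fin.cons k0 k' : Fin (r + 1) → ℤ) j)) =
          ∑ n ∈ N, (w n * p (F 0 n + k0)) * (∏ j : Fin r, p (F j.succ n + k' j) - ∏ j : Fin r, m (F j.succ n + k' j)) +
          ∑ n ∈ N, (w n * ∏ j : Fin r, m (F j.succ n + k' j)) * (p (F 0 n + k0) - m (F 0 n + k0)) := by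
        rw [← sum_add_distrib]
        refine sum_congr rfl fun n _ => ?_
        rw [Fin.prod_univ_succ, Fin.prod_univ_succ]
        simp only [Fin.cons_zero, Fin.cons_succ]
        ring
      rw [e1]
      nlinarith [sq_nonneg (∑ n ∈ N, (w n * p (F 0 n + k0)) * (∏ j : Fin r, p (F j.succ n + k' j) - ∏ j : Fin r, m (F j.succ n + k' j)) -
          ∑ n ∈ N, (w n * ∏ j : Fin r, m (F j.succ n + k' j)) * (p (F 0 n + k0) - m (F 0 n + k0)))]
    have h1 : ∑ k0 ∈ I, ∑ k' ∈ Q, (∑ n ∈ N, w n * (∏ j, p (F j n + (Fin.cons k0 k' : Fin (r + 1) → ℤ) j) - ∏ j, m (F j n + (Fin.cons k0 k' : Fin (r + 1) → ℤ) j))) ^ 2 ≤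
        2 * ∑ k0 ∈ I, ∑ k' ∈ Q, (∑ n ∈ N, (w n * p (F 0 n + k0)) * (∏ j : Fin r, p (F j.succ n + k' j) - ∏ j : Fin r, m (F j.succ n + k' j))) ^ 2 +
        2 * ∑ k' ∈ Q, ∑ k0 ∈ I, (∑ n ∈ N, (w n * ∏ j : Fin r, m (F j.succ n + k' j)) * (p (F 0 n + k0) - m (F 0 n + k0))) ^ 2 := by
      rw [sum_comm (s := Q) (t := I), mul_sum, mul_sum, ← sum_add_distrib]
      refine sum_le_sum fun k0 hk0 => ?_
      rw [mul_sum, mul_sum, ← sum_add_distrib]
      exact sum_le_sum fun k' hk' => hdec k0 hk0 k' hk'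
    have h2 := sum_le_sum hA
    rw [← mul_sum, sum_const, nsmul_eq_mul] at h2
    have h3 := sum_le_sum hB
    rw [sum_const, nsmul_eq_mul, hQc] at h3
    have h4 := mul_le_mul_of_nonneg_left h1 hI0
    have h5 := mul_le_mul_of_nonneg_left h3 hI0
    have h6 : (1 : ℝ) ≤ 4 ^ r := one_le_pow₀ (by norm_num)
    have h7 : (0 : ℝ) ≤ (I.card : ℝ) * (I.card : ℝ) ^ r * S := by positivity
    refine h4.trans ?_
    rw [pow_succ, pow_succ]
    nlinarith

end Pool.Agent.H79.U
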