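import Pool.Agent.H79.U.GR
import Pool.Agent.H79.U.GT

/-! All long intervals of shifts, and tuples. -/

set_option autoImplicit false

namespace Pool.Agent.H79.U

open Finset
open Pool.Agent.helper24_UT
open Pool.Agent.H373R2.T7 (lamI lamzI lamz Vz pz mem_pz ev_log' ev_L' Vz_pos Vz_inv_small lamI_nonneg lamzI_nonneg lamP lamP_nonneg lamP_le pp_sum)

lemma sum_windows_int (f : ℤ → ℝ) (κ : ℤ) (H : ℕ) : ∀ J : ℕ,
    ∑ k ∈ Ioc κ (κ + (J * H : ℕ)), f k = ∑ j ∈ range J, ∑ k ∈ Ioc (κ + (j * H : ℕ)) (κ + (j * H : ℕ) + (H : ℕ)), f k := by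
  intro J
  induction J with
  | zero => simp
  | succ J ih =>
    rw [sum_range_succ, ← ih]
    have h1 : Ioc κ (κ + ((J + 1) * H : ℕ)) = Ioc κ (κ + (J * H : ℕ)) ∪ Ioc (κ + (J * H : ℕ)) (κ + (J * H : ℕ) + (H : ℕ)) := by
      rw [Ioc_union_Ioc_eq_Ioc (by omega) (by omega)]
      congr 1
      push_cast
      ring
    rw [h1, sum_union]
    rw [disjoint_left]
    intro x hx hx'
    rw [mem_Ioc] at hx hx'
    omega

theorem ms (a : ℕ) (b : ℤ) (ha : 1 ≤ a) (A : ℕ) : ∃ C E₀ : ℕ, ∀ E₁ : ℕ, ∃ X₀ : ℕ, ∀ X : ℕ, X₀ ≤ X → ∀ z : ℕ,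
    (Real.log X) ^ E₀ ≤ z → (z : ℝ) ≤ (Real.log X) ^ E₁ → ∀ (κ : ℤ) (Λ : ℕ), (X : ℝ) ^ (3 / 2 : ℝ) * (Real.log X) ^ C ≤ Λ →
    -(X : ℤ) ^ 2 ≤ 4 * κ → κ + Λ ≤ (X : ℤ) ^ 2 → ∀ w : ℕ → ℝ, (∀ n, |w n| ≤ 1) →
    ∑ k ∈ Ioc κ (κ + Λ), (∑ n ∈ Ioc X (2 * X), w n * E1 z (FF a b n + k)) ^ 2 ≤
      (Λ : ℝ) * (X : ℝ) ^ 2 / (Real.log X) ^ A := by
  obtain ⟨C₀, E₀, hb⟩ := base_ms a b ha (A + 1)
  refine ⟨C₀ + 1, E₀, fun E₁ => ?_⟩
  obtain ⟨X₁, h1⟩ := hb E₁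
  obtain ⟨X₂, h2⟩ := ev_L' 10
  refine ⟨max (max X₁ X₂) 1, ?_⟩
  intro X hX z hz1 hz2 κ Λ hΛ hκ1 hκ2 w hw
  have c1 : X₁ ≤ X := ((le_max_left _ _).trans (le_max_left _ _)).trans hX
  have c2 : X₂ ≤ X := ((le_max_right _ _).trans (le_max_left _ _)).trans hX
  have c3 : 1 ≤ X := (le_max_right _ _).trans hX
  have hL := h2 X c2
  set L : ℝ := Real.log X with hLdef
  have hL0 : 0 < L := by linarith
  have hX1 : (1 : ℝ) ≤ X := by exact_mod_cast c3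
  have hX0 : (0 : ℝ) < X := by linarith
  have hq1 : 1 ≤ √(X : ℝ) := by
    apply Real.le_sqrt_of_sq_le
    linarith
  have hLC : (1 : ℝ) ≤ L ^ C₀ := one_le_pow₀ (by linarith)
  set Y : ℕ := Yc C₀ X with hY
  have hYup : (Y : ℝ) ≤ 2 * (√(X : ℝ) * L ^ C₀) := by
    have e1 : (Y : ℝ) < √(X : ℝ) * L ^ C₀ + 1 := Nat.ceil_lt_add_one (by positivity)
    have e2 : 1 ≤ √(X : ℝ) * L ^ C₀ := one_le_mul_of_one_le_of_one_le hq1 hLC
    linarith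
  have hYlow : √(X : ℝ) * L ^ C₀ ≤ Y := Nat.le_ceil _
  have hY1R : (1 : ℝ) ≤ Y := le_trans (one_le_mul_of_one_le_of_one_le hq1 hLC) hYlow
  have hY1 : 1 ≤ Y := by exact_mod_cast hY1R
  set H : ℕ := X * Y with hH
  have hH1 : 1 ≤ H := Nat.mul_pos c3 hY1
  have hrt : (X : ℝ) ^ (3 / 2 : ℝ) = X * √(X : ℝ) := by
    rw [Real.sqrt_eq_rpow, ← Real.rpow_one_add' hX0.le (by norm_num)]
    norm_num
  have hHΛR : (H : ℝ) ≤ Λ := by
    refine le_trans ?_ hΛ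
    rw [hrt, hH]
    push_cast
    calc (X : ℝ) * Y ≤ X * (2 * (√(X : ℝ) * L ^ C₀)) := by gcongr
      _ = X * √(X : ℝ) * (2 * L ^ C₀) := by ring
      _ ≤ X * √(X : ℝ) * (L * L ^ C₀) := by gcongr; linarith
      _ = X * √(X : ℝ) * L ^ (C₀ + 1) := by ring
  have hHΛ : H ≤ Λ := by exact_mod_cast hHΛR
  set J : ℕ := Λ / H + 1 with hJ
  set f : ℤ → ℝ := fun k => (∑ n ∈ Ioc X (2 * X), w n * E1 z (FF a b n + k)) ^ 2 with hf
  have hcov : Λ ≤ J * H := by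
    have e1 := Nat.lt_div_mul_add (a := Λ) (b := H) hH1
    have e2 : J * H = Λ / H * H + H := by rw [hJ]; ring
    omega
  have h3 : ∑ k ∈ Ioc κ (κ + Λ), f k ≤ ∑ k ∈ Ioc κ (κ + (J * H : ℕ)), f k := by
    apply sum_le_sum_of_subset_of_nonneg
    · intro k hk
      rw [mem_Ioc] at hk ⊢
      have : (Λ : ℤ) ≤ ((J * H : ℕ) : ℤ) := by exact_mod_cast hcov
      omega
    · intro k _ _
      rw [hf]
      exact sq_nonneg _
  refine h3.trans ?_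
  rw [sum_windows_int]
  have h4 : ∀ j ∈ range J, ∑ k ∈ Ioc (κ + (j * H : ℕ)) (κ + (j * H : ℕ) + (H : ℕ)), f k ≤ (X : ℝ) * Y * (X : ℝ) ^ 2 / L ^ (A + 1) := by
    intro j hj
    rw [mem_range, hJ] at hj
    have e1 : j * H ≤ Λ := by
      have e2 : j * H ≤ Λ / H * H := Nat.mul_le_mul_right _ (by omega)
      exact e2.trans (Nat.div_mul_le_self Λ H)
    have e1Z : ((j * H : ℕ) : ℤ) ≤ Λ := by exact_mod_cast e1
    have e0Z : (0 : ℤ) ≤ ((j * H : ℕ) : ℤ) := Nat.cast_nonneg _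
    have eX : (0 : ℤ) ≤ (X : ℤ) ^ 2 := sq_nonneg _
    exact h1 X c1 z hz1 hz2 (κ + (j * H : ℕ)) (by linarith) (by linarith) w hw
  refine (sum_le_sum h4).trans ?_
  rw [sum_const, card_range, nsmul_eq_mul]
  have h5 : (J : ℝ) * (X * Y) ≤ 2 * Λ := by
    have e1 : (J : ℝ) ≤ Λ / H + 1 := by
      rw [hJ]
      push_cast
      have := Nat.cast_div_le (α := ℝ) (m := Λ) (n := H)
      linarith
    have e2 : (0 : ℝ) < H := by exact_mod_cast hH1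
    have e3 : (H : ℝ) = X * Y := by rw [hH]; push_cast; ring
    rw [← e3]
    calc (J : ℝ) * H ≤ (Λ / H + 1) * H := by gcongr
      _ = Λ + H := by field_simp
      _ ≤ 2 * Λ := by linarith
  calc (J : ℝ) * ((X : ℝ) * Y * (X : ℝ) ^ 2 / L ^ (A + 1)) = (J * (X * Y)) * ((X : ℝ) ^ 2 / L ^ (A + 1)) := by ring
    _ ≤ (2 * Λ) * ((X : ℝ) ^ 2 / L ^ (A + 1)) := by gcongr
    _ = 2 / L * (Λ * (X : ℝ) ^ 2 / L ^ A) := by
        rw [pow_succ L A]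
        field_simp
    _ ≤ 1 * (Λ * (X : ℝ) ^ 2 / L ^ A) := by
        apply mul_le_mul_of_nonneg_right _ (by positivity)
        rw [div_le_one hL0]
        linarith
    _ = _ := one_mul _

end Pool.Agent.H79.U
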