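import Pool.Agent.H79.U.GS

/-! Tuples. -/

set_option autoImplicit false

namespace Pool.Agent.H79.U

open Finset
open Pool.Agent.helper24_UT
open Pool.Agent.H373R2.T7 (lamI lamzI lamz Vz pz mem_pz ev_log' ev_L' Vz_pos Vz_inv_small lamI_nonneg lamzI_nonneg lamP lamP_nonneg lamP_le pp_sum)

lemma low (a X n : ℕ) (b k : ℤ) (ha : 1 ≤ a) (hb : 8 * |b| ≤ X) (h1 : X ≤ n) (hk : -(X : ℤ) ^ 2 ≤ 4 * k) :
    (X : ℤ) ^ 2 ≤ 4 * (FF a b n + k) := by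
  have hab := abs_le.1 (show |b| ≤ |b| from le_rfl)
  have hXZ : (0 : ℤ) ≤ X := Nat.cast_nonneg _
  have haZ : (1 : ℤ) ≤ a := by exact_mod_cast ha
  have h1Z : (X : ℤ) ≤ n := by exact_mod_cast h1
  have hTX : (X : ℤ) ^ 2 ≤ (n : ℤ) ^ 2 := by nlinarith
  have e1 : 8 * (|b| * n) ≤ X * n := by nlinarith
  have e2 : (X : ℤ) * n ≤ (n : ℤ) ^ 2 := by nlinarith
  have e4 : -(|b| * n) ≤ b * n := by
    have := mul_le_mul_of_nonneg_right hab.1 (show (0 : ℤ) ≤ n by omega)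
    linarith
  have f5 : (n : ℤ) ^ 2 ≤ a * (n : ℤ) ^ 2 := by nlinarith
  unfold FF
  nlinarith

open Classical in
/-- almost all tuples of shifts -/
theorem tuples (r A : ℕ) (a : Fin r → ℕ) (b : Fin r → ℤ) (ha : ∀ j, 1 ≤ a j) : ∃ C E₀ : ℕ, ∀ E₁ : ℕ, ∃ X₀ : ℕ, ∀ X : ℕ, X₀ ≤ X → ∀ z : ℕ,
    (Real.log X) ^ E₀ ≤ z → (z : ℝ) ≤ (Real.log X) ^ E₁ → ∀ (κ : ℤ) (Λ : ℕ), (X : ℝ) ^ (3 / 2 : ℝ) * (Real.log X) ^ C ≤ Λ →
    -(X : ℤ) ^ 2 ≤ 4 * κ → κ + Λ ≤ (X : ℤ) ^ 2 → ∀ w : ℕ → ℝ, (∀ n, |w n| ≤ 1) →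
    (((Fintype.piFinset (fun _ : Fin r => Ioc κ (κ + Λ))).filter (fun k =>
      X / (Real.log X) ^ A < |∑ n ∈ Ioc X (2 * X), w n * (∏ j, pr1 (FF (a j) (b j) n + k j) - ∏ j, mu1 z (FF (a j) (b j) n + k j))|)).card : ℝ) ≤
      (Λ : ℝ) ^ r / (Real.log X) ^ A := by
  choose C E hCE using fun j => ms (a j) (b j) (ha j) (3 * A + 1)
  refine ⟨∑ j, C j, ∑ j, E j, fun E₁ => ?_⟩
  choose X₁ h1 using fun j => hCE j E₁
  obtain ⟨X₂, h2⟩ := ev_L' (max 10 (4 ^ r))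
  obtain ⟨X₃, h3⟩ := Vz_inv_small E₁
  refine ⟨max (max (∑ j, X₁ j) X₂) (max X₃ (8 * ∑ j, (b j).natAbs + 4)), ?_⟩
  intro X hX z hz1 hz2 κ Λ hΛ hκ1 hκ2 w hw
  have c1 : ∑ j, X₁ j ≤ X := ((le_max_left _ _).trans (le_max_left _ _)).trans hX
  have c2 : X₂ ≤ X := ((le_max_right _ _).trans (le_max_left _ _)).trans hX
  have c3 : X₃ ≤ X := ((le_max_left _ _).trans (le_max_right _ _)).trans hX
  have c4 : 8 * ∑ j, (b j).natAbs + 4 ≤ X := ((le_max_right _ _).trans (le_max_right _ _)).trans hX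
  have hL' := h2 X c2
  set L : ℝ := Real.log X with hLdef
  have hL : 10 ≤ L := (le_max_left _ _).trans hL'
  have hLr : (4 : ℝ) ^ r ≤ L := (le_max_right _ _).trans hL'
  have hL0 : 0 < L := by linarith
  have hX4 : 4 ≤ X := by omega
  have hXR : (4 : ℝ) ≤ X := by exact_mod_cast hX4
  have hX0 : (0 : ℝ) < X := by linarith
  have hz0 : 1 ≤ z := by
    have e1 : (1 : ℝ) ≤ L ^ (∑ j, E j) := one_le_pow₀ (by linarith)
    exact_mod_cast e1.trans hz1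
  have hV := h3 X c3 z hz0 hz2
  rw [← hLdef] at hV
  have hb : ∀ j, 8 * |b j| ≤ X := by
    intro j
    have e1 : |b j| = ((b j).natAbs : ℤ) := Int.abs_eq_natAbs (b j)
    have e2 : (b j).natAbs ≤ ∑ j, (b j).natAbs := single_le_sum (f := fun j => (b j).natAbs) (fun _ _ => Nat.zero_le _) (mem_univ j)
    rw [e1]
    omega
  set I : Finset ℤ := Ioc κ (κ + Λ) with hI
  have hIc : (I.card : ℝ) = Λ := by
    rw [hI, Int.card_Ioc]
    have : (κ + (Λ : ℤ) - κ).toNat = Λ := by omega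
    rw [this]
  have hΛ0 : (0 : ℝ) < Λ := by
    have : (0 : ℝ) < (X : ℝ) ^ (3 / 2 : ℝ) * L ^ (∑ j, C j) := by positivity
    linarith
  have hm : ∀ j, ∀ n ∈ Ioc X (2 * X), ∀ k ∈ I, 0 ≤ mu1 z (FF (a j) (b j) n + k) ∧ mu1 z (FF (a j) (b j) n + k) ≤ 1 := by
    intro j n hn k hk
    rw [mem_Ioc] at hn
    rw [hI, mem_Ioc] at hk
    have e1 := low (a j) X n (b j) k (ha j) (hb j) hn.1.le (by linarith [hk.1])
    have e2 : (X : ℤ) ≤ FF (a j) (b j) n + k := by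
      have e3 : (4 : ℤ) ≤ X := by exact_mod_cast hX4
      nlinarith
    apply mu1_01 z _ L hL0 _ hV
    apply Real.log_le_log hX0
    exact_mod_cast e2
  set S : ℝ := (Λ : ℝ) * (X : ℝ) ^ 2 / L ^ (3 * A + 1) with hS
  have hS0 : 0 ≤ S := by positivity
  have hM : ∀ j, ∀ w : ℕ → ℝ, (∀ n, |w n| ≤ 1) →
      ∑ k ∈ I, (∑ n ∈ Ioc X (2 * X), w n * (pr1 (FF (a j) (b j) n + k) - mu1 z (FF (a j) (b j) n + k))) ^ 2 ≤ S := by
    intro j w' hw'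
    have hle1 : E j ≤ ∑ j, E j := single_le_sum (f := E) (fun _ _ => Nat.zero_le _) (mem_univ j)
    have hle2 : C j ≤ ∑ j, C j := single_le_sum (f := C) (fun _ _ => Nat.zero_le _) (mem_univ j)
    have hle3 : X₁ j ≤ ∑ j, X₁ j := single_le_sum (f := X₁) (fun _ _ => Nat.zero_le _) (mem_univ j)
    have e1 : L ^ (E j) ≤ z := (pow_le_pow_right₀ (by linarith) hle1).trans hz1
    have e2 : (X : ℝ) ^ (3 / 2 : ℝ) * L ^ (C j) ≤ Λ := by
      refine le_trans ?_ hΛ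
      apply mul_le_mul_of_nonneg_left _ (by positivity)
      exact pow_le_pow_right₀ (by linarith) hle2
    exact h1 j X (hle3.trans c1) z e1 hz2 κ Λ e2 hκ1 hκ2 w' hw'
  have ht := tup I (Ioc X (2 * X)) pr1 (mu1 z) S hS0 pr1_01 r (fun j n => FF (a j) (b j) n) hm hM w hw
  rw [hIc] at ht
  set Q := Fintype.piFinset (fun _ : Fin r => I) with hQ
  set G : (Fin r → ℤ) → ℝ := fun k => ∑ n ∈ Ioc X (2 * X), w n * (∏ j, pr1 (FF (a j) (b j) n + k j) - ∏ j, mu1 z (FF (a j) (b j) n + k j)) with hG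
  set t : ℝ := X / L ^ A with htdef
  have ht0 : 0 < t := by positivity
  have hmar : ((Q.filter (fun k => t < |G k|)).card : ℝ) * t ^ 2 ≤ ∑ k ∈ Q, G k ^ 2 := by
    calc ((Q.filter (fun k => t < |G k|)).card : ℝ) * t ^ 2 = ∑ _k ∈ Q.filter (fun k => t < |G k|), t ^ 2 := by
          rw [sum_const, nsmul_eq_mul]
      _ ≤ ∑ k ∈ Q.filter (fun k => t < |G k|), G k ^ 2 := by
          refine sum_le_sum fun k hk => ?_
          rw [← sq_abs (G k)]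
          exact pow_le_pow_left₀ ht0.le (mem_filter.1 hk).2.le 2
      _ ≤ ∑ k ∈ Q, G k ^ 2 := sum_le_sum_of_subset_of_nonneg (filter_subset _ _) fun k _ _ => sq_nonneg _
  have hfin : (Λ : ℝ) * (((Q.filter (fun k => t < |G k|)).card : ℝ) * t ^ 2) ≤ 4 ^ r * (Λ : ℝ) ^ r * S :=
    (mul_le_mul_of_nonneg_left hmar hΛ0.le).trans ht
  have hgoal : (Λ : ℝ) * t ^ 2 * ((Q.filter (fun k => t < |G k|)).card : ℝ) ≤ (Λ : ℝ) * t ^ 2 * ((Λ : ℝ) ^ r / L ^ A) := by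
    calc (Λ : ℝ) * t ^ 2 * ((Q.filter (fun k => t < |G k|)).card : ℝ) = (Λ : ℝ) * (((Q.filter (fun k => t < |G k|)).card : ℝ) * t ^ 2) := by ring
      _ ≤ 4 ^ r * (Λ : ℝ) ^ r * S := hfin
      _ ≤ L * (Λ : ℝ) ^ r * S := by gcongr
      _ = (Λ : ℝ) * t ^ 2 * ((Λ : ℝ) ^ r / L ^ A) := by
          rw [hS, htdef, show 3 * A + 1 = A + A + A + 1 by ring, pow_succ, pow_add, pow_add]
          field_simp
          ring
  exact le_of_mul_le_mul_left hgoal (by positivity)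

end Pool.Agent.H79.U
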